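import Pool.Agent.Work.MP_69fea5_lc.H2.Basic

/-!
Finitely many colours: statements of the steps of the proof that in every model of `ACA_0` every
colouring with finitely many colours has an unbounded set `X` such that the sums of at most two
elements of `X` have at most half of the colours.
-/

set_option autoImplicit false

namespace Pool.Agent.Work.MP_69fea5_lc.H3

open Pool.Agent.Work.MP_69fea5_lc.H2

universe u

section defs

variable {N : Type u} [CommSemiring N] [LinearOrder N] {K : Type}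

/-- the `K`-valued function `c` is in the model -/
def DK (S : Set (Set N)) (c : N → K) : Prop := ∀ v, {x | c x = v} ∈ S

/-- the window of `c` at `p` of length `l` equals the window of `d` at `q` -/
def Wk (c : N → K) (p : N) (d : N → K) (q l : N) : Prop := ∀ k < l, c (p + k) = d (q + k)

/-- the window of `c` at `x` of length `n` avoids all words `c[p, p+l)` with `pr p l ∈ F` -/
def Avk (c : N → K) (F : Set N) (x n : N) : Prop :=
  ∀ p l j, pr p l ∈ F → j + l ≤ n → ¬ Wk c (x + j) c p l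

/-- arbitrarily long windows of `c` avoid `F`, arbitrarily far -/
def Freek (c : N → K) (F : Set N) : Prop := ∀ n z, ∃ x, z ≤ x ∧ Avk c F x n

/-- the greedy set of forbidden words -/
def Forbk (c : N → K) (A : Set N) : Prop :=
  ∀ i, (i ∈ A ↔ (∃ p l, i = pr p l) ∧ Freek c {k | (k ∈ A ∧ k < i) ∨ k = i})

/-- `y` is a uniformly recurrent sequence all of whose windows occur arbitrarily far in `c` -/
structure Mink (c y : N → K) : Prop where
  far : ∀ p l z, ∃ x, z ≤ x ∧ Wk c x y p l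
  recur : ∀ p l, ∃ r, ∀ q, ∃ w < r, Wk y (q + w) y p l

/-- the window of `y` at `p'` of length `l'` contains the window of `y` at `p` of length `l` at
offset `d` -/
def Extk (y : N → K) (p' l' d p l : N) : Prop := d + l ≤ l' ∧ Wk y (p' + d) y p l

/-- `v` is achieved by the window of `y` at `p` of length `l`, pointed at `i` -/
def Ach (c y : N → K) (p l i : N) (v : K) : Prop :=
  ∀ n, ∃ s, n ≤ s ∧ Wk c s y p l ∧ ∃ q, Wk y q y p l ∧ y (q + i + (s + i)) = v

/-- the set of achieved colours -/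
def AS (c y : N → K) (p l i : N) : Set K := {v | Ach c y p l i v}

/-- the pointed window is stable -/
def Stab (c y : N → K) (p l i : N) : Prop :=
  ∀ p' l' d, Extk y p' l' d p l → AS c y p l i ⊆ AS c y p' l' (i + d)

/-- Case II: no stable pointed window achieves its own colour -/
def CaseII (c y : N → K) : Prop := ∀ p l i, i < l → Stab c y p l i → y (p + i) ∉ AS c y p l i

/-- a double limit along `B`: `G m t` is the value of the limit point at the integer `t - m` -/
structure TwoLimk (S : Set (Set N)) (c y : N → K) (B : Set N) (G : N → N → K) : Prop where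
  mem : B ∈ S
  unb : Unb B
  dfn : ∀ v, D S fun p : N × N × PUnit.{u + 1} => G p.1 p.2.1 = v
  shift : ∀ m t r, G (m + r) (t + r) = G m t
  win : ∀ m l, ∃ q, ∀ t < l, G m t = y (q + t)
  lim : ∀ l, Ev B fun b => Ev B fun b' => ∀ t < l, ∀ z, z + b = b' → c (z + t) = G 0 t

/-- the window of `y` at `p` of length `l` occurs in the limit point at the integer `f - m` -/
def Occ (y : N → K) (G : N → N → K) (m f p l : N) : Prop := ∀ k < l, G m (f + k) = y (p + k)

/-- the class `F_m`: stable pointed windows of `y` which contain the central window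
`[-m, m]` of the limit point at two places symmetric to the point `i` -/
def FM (c y : N → K) (G : N → N → K) (m p l i : N) : Prop :=
  i < l ∧ Stab c y p l i ∧ ∃ j₁ j₂, j₁ + j₂ + m + m = i + i ∧ j₁ + m + m + 1 ≤ l ∧
    j₂ + m + m + 1 ≤ l ∧ (∀ t < m + m + 1, y (p + j₁ + t) = G m t) ∧
    ∀ t < m + m + 1, y (p + j₂ + t) = G m t

/-- `a` is a minimal recurrent type -/
structure MinType (c y : N → K) (G : N → N → K) (m₀ : N) (a : Set K) : Prop where
  ex : ∀ m, ∃ p l i, FM c y G m p l i ∧ AS c y p l i = a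
  min : ∀ p l i, FM c y G m₀ p l i → AS c y p l i ⊆ a → AS c y p l i = a

/-- `w` (which will be `x` or `x + x`) is the sum of two points of the limit point at which
the same window of type `a` occurs -/
def Rel (c y : N → K) (G : N → N → K) (m₀ : N) (a : Set K) (w : N) : Prop :=
  ∃ p l i m f₁ f₂, FM c y G m₀ p l i ∧ AS c y p l i = a ∧ Occ y G 0 f₁ p l ∧ Occ y G m f₂ p l ∧
    f₁ + f₂ + i + i = m + w

/-- `Rel` with data and thresholds bounded by `D` -/
def RelB (c y : N → K) (G : N → N → K) (m₀ : N) (a : Set K) (w D : N) : Prop :=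
  ∃ p l i m f₁ f₂, FM c y G m₀ p l i ∧ AS c y p l i = a ∧ Occ y G 0 f₁ p l ∧ Occ y G m f₂ p l ∧
    f₁ + f₂ + i + i = m + w ∧ m ≤ D ∧ f₁ + l ≤ D ∧ f₂ + l ≤ D ∧ i ≤ D ∧
    ∀ s, D ≤ s → Wk c s y p l → ∀ q, Wk y q y p l → y (q + i + (s + i)) ∈ a

/-- solutions with colours in `T` -/
def Solk (S : Set (Set N)) (c : N → K) (T : Set K) : Prop :=
  ∃ X ∈ S, Unb X ∧ ∀ x ∈ X, 0 < x ∧ c x ∈ T ∧ ∀ y ∈ X, y < x → c (x + y) ∈ T

end defs

/-! ### statements -/

section stmts

/-- LIMK: limits of `K`-valued relations along a subset. -/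
def S_LIMK : Prop := ∀ (N : Type u) [CommSemiring N] [LinearOrder N] [IsStrictOrderedRing N]
  [CanonicallyOrderedAdd N] (S : Set (Set N)), Good S → ∀ (K : Type) [Finite K],
  ∀ R : K → N → N → Prop, (∀ v, D S fun p : N × N × PUnit.{u + 1} => R v p.1 p.2.1) →
    (∀ v w n b, R v n b → R w n b → v = w) → ∀ B ∈ S, Unb B →
    (∀ n, Ev B fun b => ∃ v, R v n b) →
    ∃ B' ∈ S, B' ⊆ B ∧ Unb B' ∧ ∃ h : N → K, DK S h ∧ ∀ n, Ev B' fun b => R (h n) n b

def S_FORBK : Prop := ∀ (N : Type u) [CommSemiring N] [LinearOrder N] [IsStrictOrderedRing N]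
  [CanonicallyOrderedAdd N] (S : Set (Set N)), Good S → ∀ (K : Type) [Finite K],
  ∀ c : N → K, DK S c → ∃ A ∈ S, Forbk c A

def S_BKAK : Prop := ∀ (N : Type u) [CommSemiring N] [LinearOrder N] [IsStrictOrderedRing N]
  [CanonicallyOrderedAdd N] (S : Set (Set N)), Good S → ∀ (K : Type) [Finite K],
  ∀ c : N → K, DK S c → ∀ A ∈ S, Forbk c A → ∀ i, Freek c (Below A i)

def S_BKBK : Prop := ∀ (N : Type u) [CommSemiring N] [LinearOrder N] [IsStrictOrderedRing N]
  [CanonicallyOrderedAdd N] (S : Set (Set N)), Good S → ∀ (K : Type) [Finite K],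
  ∀ (c : N → K) (A : Set N), Forbk c A →
  ∀ p l, pr p l ∉ A → ∃ n z, ∀ x, z ≤ x → Avk c (Below A (pr p l)) x n →
    ∃ j, j + l ≤ n ∧ Wk c (x + j) c p l

/-- BSEQ: positions starting long windows which avoid the forbidden words. -/
def S_BSEQ : Prop := ∀ (N : Type u) [CommSemiring N] [LinearOrder N] [IsStrictOrderedRing N]
  [CanonicallyOrderedAdd N] (S : Set (Set N)), Good S → ∀ (K : Type) [Finite K],
  ∀ c : N → K, DK S c → ∀ A ∈ S, (∀ i, Freek c (Below A i)) →
    ∃ B ∈ S, Unb B ∧ ∀ n, Ev B fun b => Avk c (Below A n) b n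

/-- MINK: the limit of the windows is uniformly recurrent. -/
def S_MINK : Prop := ∀ (N : Type u) [CommSemiring N] [LinearOrder N] [IsStrictOrderedRing N]
  [CanonicallyOrderedAdd N] (S : Set (Set N)), Good S → ∀ (K : Type) [Finite K],
  ∀ c y : N → K, DK S c → DK S y → ∀ A ∈ S, ∀ B ∈ S, Unb B →
    (∀ n, Ev B fun b => Avk c (Below A n) b n) → (∀ n, Ev B fun b => c (b + n) = y n) →
    (∀ p l, pr p l ∉ A → ∃ n z, ∀ x, z ≤ x → Avk c (Below A (pr p l)) x n →
      ∃ j, j + l ≤ n ∧ Wk c (x + j) c p l) → Mink c y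

/-- ANTI: achieved colours decrease under extension. -/
def S_ANTI : Prop := ∀ (N : Type u) [CommSemiring N] [LinearOrder N] [IsStrictOrderedRing N]
  [CanonicallyOrderedAdd N] (S : Set (Set N)), Good S → ∀ (K : Type) [Finite K],
  ∀ (c y : N → K) (p' l' d p l i : N), Extk y p' l' d p l →
    AS c y p' l' (i + d) ⊆ AS c y p l i

/-- THR: thresholds. -/
def S_THR : Prop := ∀ (N : Type u) [CommSemiring N] [LinearOrder N] [IsStrictOrderedRing N]
  [CanonicallyOrderedAdd N] (S : Set (Set N)), Good S → ∀ (K : Type) [Finite K],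
  ∀ (c y : N → K) (p l i : N), ∃ n, ∀ s, n ≤ s → Wk c s y p l → ∀ q, Wk y q y p l →
    y (q + i + (s + i)) ∈ AS c y p l i

/-- STB: stable extensions exist. -/
def S_STB : Prop := ∀ (N : Type u) [CommSemiring N] [LinearOrder N] [IsStrictOrderedRing N]
  [CanonicallyOrderedAdd N] (S : Set (Set N)), Good S → ∀ (K : Type) [Finite K],
  ∀ (c y : N → K) (p l i : N), ∃ p' l' d, Extk y p' l' d p l ∧ Stab c y p' l' (i + d)

/-- SYM: a window with two occurrences of the same window symmetric to its point. -/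
def S_SYM : Prop := ∀ (N : Type u) [CommSemiring N] [LinearOrder N] [IsStrictOrderedRing N]
  [CanonicallyOrderedAdd N] (S : Set (Set N)), Good S → ∀ (K : Type) [Finite K],
  ∀ (c y : N → K) (p₁ l₁ e t p l i : N), Extk y p₁ l₁ e p l → Extk y p₁ l₁ (e + (t + t)) p l →
    AS c y p₁ l₁ (e + t + i) ⊆ AS c y p l i

/-- C1K: Case I. -/
def S_C1K : Prop := ∀ (N : Type u) [CommSemiring N] [LinearOrder N] [IsStrictOrderedRing N]
  [CanonicallyOrderedAdd N] (S : Set (Set N)), Good S → ∀ (K : Type) [Finite K],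
  ∀ c y : N → K, DK S c → DK S y → Mink c y → ∀ p l i, i < l → Stab c y p l i →
    y (p + i) ∈ AS c y p l i → Solk S c {y (p + i)}

/-- SEQK: positions at which the past of `c` is in the minimal system. -/
def S_SEQK : Prop := ∀ (N : Type u) [CommSemiring N] [LinearOrder N] [IsStrictOrderedRing N]
  [CanonicallyOrderedAdd N] (S : Set (Set N)), Good S → ∀ (K : Type) [Finite K],
  ∀ c y : N → K, DK S c → DK S y → Mink c y → ∃ B ∈ S, Unb B ∧
    ∀ m, Ev B fun b => ∃ x q, x + m = b ∧ Wk c x y q (m + 1)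

/-- HLIMK: the limit `h` of the pasts of `c`. -/
def S_HLIMK : Prop := ∀ (N : Type u) [CommSemiring N] [LinearOrder N] [IsStrictOrderedRing N]
  [CanonicallyOrderedAdd N] (S : Set (Set N)), Good S → ∀ (K : Type) [Finite K],
  ∀ c y : N → K, DK S c → DK S y → (∃ B ∈ S, Unb B ∧
    ∀ m, Ev B fun b => ∃ x q, x + m = b ∧ Wk c x y q (m + 1)) →
  ∃ B ∈ S, ∃ h : N → K, DK S h ∧ Unb B ∧
    (∀ m, Ev B fun b => ∀ t ≤ m, ∀ x, x + t = b → c x = h t) ∧
    (∀ m : N, ∃ q : N, ∀ t t' : N, t + t' = m → h t = y (q + t'))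

/-- GLIMK: the double limit. -/
def S_GLIMK : Prop := ∀ (N : Type u) [CommSemiring N] [LinearOrder N] [IsStrictOrderedRing N]
  [CanonicallyOrderedAdd N] (S : Set (Set N)), Good S → ∀ (K : Type) [Finite K],
  ∀ c y : N → K, DK S c → DK S y → ∀ B ∈ S, ∀ h : N → K, DK S h → Unb B →
    (∀ m, Ev B fun b => ∀ t ≤ m, ∀ x, x + t = b → c x = h t) →
    (∀ m : N, ∃ q : N, ∀ t t' : N, t + t' = m → h t = y (q + t')) →
    ∃ B' G, TwoLimk S c y B' G

/-- PARK: occurrences of the right parity. -/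
def S_PARK : Prop := ∀ (N : Type u) [CommSemiring N] [LinearOrder N] [IsStrictOrderedRing N]
  [CanonicallyOrderedAdd N] (S : Set (Set N)), Good S → ∀ (K : Type) [Finite K],
  ∀ y : N → K, (∀ p l, ∃ r, ∀ q, ∃ w < r, Wk y (q + w) y p l) →
  ∀ p l, ∃ L, ∀ q e, ∃ u < L, ∃ v < L, Wk y (q + v) y p l ∧ Wk y (q + (e + e) + u) y p l ∧
    ∃ n, u + v = n + n

/-- PIG1: constant offsets for sums `b + b'`. -/
def S_PIG1 : Prop := ∀ (N : Type u) [CommSemiring N] [LinearOrder N] [IsStrictOrderedRing N]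
  [CanonicallyOrderedAdd N] (S : Set (Set N)), Good S → ∀ (K : Type) [Finite K],
  ∀ (c y : N → K) (B : Set N) (G : N → N → K), DK S c → DK S y → TwoLimk S c y B G →
  (∀ p l, ∃ r, ∀ q, ∃ w < r, Wk y (q + w) y p l) →
  ∀ p l, ∃ u v : N, ∀ z, ∃ b ∈ B, z ≤ b ∧ ∀ z', ∃ b' ∈ B, z' ≤ b' ∧
    Occ y G (b' + b) v p l ∧ Occ y G 0 (b' + b + u) p l

/-- PIG2: constant offsets of the right parity for `b + b`. -/
def S_PIG2 : Prop := ∀ (N : Type u) [CommSemiring N] [LinearOrder N] [IsStrictOrderedRing N]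
  [CanonicallyOrderedAdd N] (S : Set (Set N)), Good S → ∀ (K : Type) [Finite K],
  ∀ (c y : N → K) (B : Set N) (G : N → N → K), DK S c → DK S y → TwoLimk S c y B G →
  (∀ p l, ∃ L, ∀ q e, ∃ u < L, ∃ v < L, Wk y (q + v) y p l ∧ Wk y (q + (e + e) + u) y p l ∧
    ∃ n, u + v = n + n) →
  ∀ p l, ∃ u v n : N, u + v = n + n ∧ ∀ z, ∃ b ∈ B, z ≤ b ∧
    Occ y G (b + b) v p l ∧ Occ y G 0 (b + b + u) p l

/-- MTYP: minimal recurrent types exist. -/
def S_MTYP : Prop := ∀ (N : Type u) [CommSemiring N] [LinearOrder N] [IsStrictOrderedRing N]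
  [CanonicallyOrderedAdd N] (S : Set (Set N)), Good S → ∀ (K : Type) [Finite K],
  ∀ (c y : N → K) (B : Set N) (G : N → N → K), DK S c → DK S y → TwoLimk S c y B G →
    ∃ m₀ a, MinType c y G m₀ a

/-- MIDP: colours of midpoints avoid the minimal type. -/
def S_MIDP : Prop := ∀ (N : Type u) [CommSemiring N] [LinearOrder N] [IsStrictOrderedRing N]
  [CanonicallyOrderedAdd N] (S : Set (Set N)), Good S → ∀ (K : Type) [Finite K],
  ∀ (c y : N → K) (G : N → N → K) (m₀ : N) (a : Set K), CaseII c y → MinType c y G m₀ a →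
  ∀ p l i q t, FM c y G m₀ p l i → AS c y p l i = a → Wk y q y p l →
    Wk y (q + (t + t)) y p l → y (q + t + i) ∉ a

/-- RELD: definability of `Rel`. -/
def S_RELD : Prop := ∀ (N : Type u) [CommSemiring N] [LinearOrder N] [IsStrictOrderedRing N]
  [CanonicallyOrderedAdd N] (S : Set (Set N)), Good S → ∀ (K : Type) [Finite K],
  ∀ (c y : N → K) (B : Set N) (G : N → N → K) (m₀ : N) (a : Set K), DK S c → DK S y →
  TwoLimk S c y B G → D S fun p : N × PUnit.{u + 1} => Rel c y G m₀ a p.1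

/-- DATA: a common bound for the data of all `w < n` with `Rel`. -/
def S_DATA : Prop := ∀ (N : Type u) [CommSemiring N] [LinearOrder N] [IsStrictOrderedRing N]
  [CanonicallyOrderedAdd N] (S : Set (Set N)), Good S → ∀ (K : Type) [Finite K],
  ∀ (c y : N → K) (B : Set N) (G : N → N → K) (m₀ : N) (a : Set K), DK S c → DK S y →
  TwoLimk S c y B G → ∀ n, ∃ D, ∀ w < n, Rel c y G m₀ a w → RelB c y G m₀ a w D

/-- STEP1: the step of the greedy construction with colours in the type. -/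
def S_STEP1 : Prop := ∀ (N : Type u) [CommSemiring N] [LinearOrder N] [IsStrictOrderedRing N]
  [CanonicallyOrderedAdd N] (S : Set (Set N)), Good S → ∀ (K : Type) [Finite K],
  ∀ (c y : N → K) (B : Set N) (G : N → N → K) (m₀ : N) (a : Set K), DK S c → DK S y →
  TwoLimk S c y B G → MinType c y G m₀ a →
  (∀ p l, ∃ u v : N, ∀ z, ∃ b ∈ B, z ≤ b ∧ ∀ z', ∃ b' ∈ B, z' ≤ b' ∧
    Occ y G (b' + b) v p l ∧ Occ y G 0 (b' + b + u) p l) →
  ∀ m, ∃ x, m ≤ x ∧ Rel c y G m₀ a x ∧ c x ∈ a ∧ ∀ x' < m, Rel c y G m₀ a x' → c (x + x') ∈ a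

/-- STEP2: the step of the greedy construction with colours outside the type. -/
def S_STEP2 : Prop := ∀ (N : Type u) [CommSemiring N] [LinearOrder N] [IsStrictOrderedRing N]
  [CanonicallyOrderedAdd N] (S : Set (Set N)), Good S → ∀ (K : Type) [Finite K],
  ∀ (c y : N → K) (B : Set N) (G : N → N → K) (m₀ : N) (a : Set K), DK S c → DK S y →
  TwoLimk S c y B G → CaseII c y → MinType c y G m₀ a →
  (∀ p l, ∃ u v n : N, u + v = n + n ∧ ∀ z, ∃ b ∈ B, z ≤ b ∧
    Occ y G (b + b) v p l ∧ Occ y G 0 (b + b + u) p l) →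
  ∀ m, ∃ x, m ≤ x ∧ Rel c y G m₀ a (x + x) ∧ c x ∉ a ∧
    ∀ x' < m, Rel c y G m₀ a (x' + x') → c (x + x') ∉ a

/-- GRDK: the greedy solution. -/
def S_GRDK : Prop := ∀ (N : Type u) [CommSemiring N] [LinearOrder N] [IsStrictOrderedRing N]
  [CanonicallyOrderedAdd N] (S : Set (Set N)), Good S → ∀ (K : Type) [Finite K],
  ∀ (c : N → K) (R : N → Prop) (T : Set K), DK S c →
    (D S fun p : N × PUnit.{u + 1} => R p.1) →
    (∀ m, ∃ x, m ≤ x ∧ R x ∧ c x ∈ T ∧ ∀ x' < m, R x' → c (x + x') ∈ T) → Solk S c T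

/-- MAINK: solutions with at most half of the colours. -/
def S_MAINK : Prop := ∀ (N : Type u) [CommSemiring N] [LinearOrder N] [IsStrictOrderedRing N]
  [CanonicallyOrderedAdd N] (S : Set (Set N)), Good S → ∀ (K : Type) [Finite K],
  ∀ c : N → K, DK S c → ∃ T : Set K, (T.ncard ≤ 1 ∨ T.ncard ≤ Nat.card K / 2) ∧ Solk S c T

end stmts

end Pool.Agent.Work.MP_69fea5_lc.H3
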