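import Pool.Agent.Work.MP_69fea5_lc.H2.Basic
import Pool.Agent.Work.MP_69fea5_lc.H3.Stmts

/-!
From good families of sets back to models of `ACA_0`, finitely many colours.
-/

set_option autoImplicit false

namespace Pool.Agent.Work.MP_69fea5_lc.H3

open Pool.Agent.Work.MP_69fea5_lc.H2

universe u

theorem final_of (hALG : S_ALG.{u}) (hMAIN : S_MAINK.{u}) (N : Type u) (M : L2 N)
    (hM : IsModelACA0 M) (k : ℕ) (c : N → Fin k) (hc : ∀ i, {x | c x = i} ∈ M.sets) :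
    ∃ X ∈ M.sets, (∀ m, ∃ x ∈ X, M.lt m x) ∧ M.zero ∉ X ∧
      ∃ T : Finset (Fin k), T.card ≤ max 1 (k / 2) ∧
        ∀ x ∈ X, c x ∈ T ∧ ∀ y ∈ X, x ≠ y → c (M.add x y) ∈ T := by
  classical
  obtain ⟨i1, i2, i3, i4, hMS, hG⟩ := hALG N M hM ⟨_, hc (c M.zero)⟩
  obtain ⟨T, hT, X, hX, hU, hs⟩ := hMAIN N M.sets hG (Fin k) c hc
  have hlt : ∀ a b : N, M.lt a b ↔ a < b := by
    intro a b; rw [hMS]; exact Iff.rfl
  have hadd : ∀ a b : N, M.add a b = a + b := by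
    intro a b; rw [hMS]; rfl
  have hzero : M.zero = 0 := by rw [hMS]; rfl
  refine ⟨X, hX, fun m => ?_, fun h0 => ?_, T.toFinset, ?_, ?_⟩
  · obtain ⟨x, hx, hmx⟩ := hU (m + 1)
    exact ⟨x, hx, (hlt _ _).2 (lt_of_lt_of_le (Good.lt_succ_self m) hmx)⟩
  · rw [hzero] at h0
    exact lt_irrefl _ (hs 0 h0).1
  · rw [Set.ncard_eq_toFinset_card', Nat.card_eq_fintype_card, Fintype.card_fin] at hT
    omega
  · intro x hx
    refine ⟨by simpa using (hs x hx).2.1, fun y hy hxy => ?_⟩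
    rw [hadd]
    rcases lt_or_gt_of_ne hxy with h | h
    · rw [add_comm]
      simpa using (hs y hy).2.2 x hx h
    · simpa using (hs x hx).2.2 y hy h

end Pool.Agent.Work.MP_69fea5_lc.H3
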