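import Pool.Agent.Work.MP_69fea5_lc.H3.Lib

/-!
ANTI, THR, SYM, STB: elementary facts on the achieved colours.
-/

set_option autoImplicit false
set_option linter.unusedSectionVars false

namespace Pool.Agent.Work.MP_69fea5_lc.H3

open Pool.Agent.Work.MP_69fea5_lc.H2

universe u

namespace I_ATS

section

variable {N : Type u} [CommSemiring N] [LinearOrder N] [IsStrictOrderedRing N]
  [CanonicallyOrderedAdd N] {K : Type}

theorem anti {c y : N → K} {p' l' d p l i : N} (h : Extk y p' l' d p l) :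
    AS c y p' l' (i + d) ⊆ AS c y p l i := by
  intro v hv n
  obtain ⟨s, hns, hs, q, hq, hy⟩ := hv n
  refine ⟨s + d, hns.trans le_self_add, (hs.sub h.1).trans h.2, q + d, (hq.sub h.1).trans h.2, ?_⟩
  rw [← hy]
  congr 1
  ring

theorem sym {c y : N → K} {p₁ l₁ e t p l i : N} (h1 : Extk y p₁ l₁ e p l)
    (h2 : Extk y p₁ l₁ (e + (t + t)) p l) : AS c y p₁ l₁ (e + t + i) ⊆ AS c y p l i := by
  intro v hv n
  obtain ⟨s, hns, hs, q, hq, hy⟩ := hv n
  refine ⟨s + (e + (t + t)), hns.trans le_self_add, (hs.sub h2.1).trans h2.2, q + e,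
    (hq.sub h1.1).trans h1.2, ?_⟩
  rw [← hy]
  congr 1
  ring

theorem thr [Finite K] (c y : N → K) (p l i : N) : ∃ n, ∀ s, n ≤ s → Wk c s y p l →
    ∀ q, Wk y q y p l → y (q + i + (s + i)) ∈ AS c y p l i := by
  have key : ∀ v : K, ∃ n : N, v ∉ AS c y p l i → ∀ s, n ≤ s → Wk c s y p l →
      ∀ q, Wk y q y p l → y (q + i + (s + i)) ≠ v := by
    intro v
    by_cases hv : v ∈ AS c y p l i
    · exact ⟨0, fun h => absurd hv h⟩
    · have hv' : ¬ ∀ n, ∃ s, n ≤ s ∧ Wk c s y p l ∧ ∃ q, Wk y q y p l ∧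
        y (q + i + (s + i)) = v := hv
      push Not at hv'
      obtain ⟨n, hn⟩ := hv'
      exact ⟨n, fun _ s hs hw q hq => hn s hs hw q hq⟩
  choose f hf using key
  obtain ⟨M, hM⟩ := Finite.exists_le f
  refine ⟨M, fun s hs hw q hq => ?_⟩
  by_contra hc
  exact hf _ hc s ((hM _).trans hs) hw q hq rfl

theorem stb_aux [Finite K] (c y : N → K) : ∀ (n : ℕ) (p l i : N), (AS c y p l i).ncard ≤ n →
    ∃ p' l' d, Extk y p' l' d p l ∧ Stab c y p' l' (i + d) := by
  intro n
  induction n with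
  | zero =>
    intro p l i h
    refine ⟨p, l, 0, Extk.refl _ _ _, ?_⟩
    intro p' l' d _
    have h0 : AS c y p l i = ∅ := (Set.ncard_eq_zero (Set.toFinite _)).1 (Nat.le_zero.1 h)
    rw [add_zero, h0]
    exact Set.empty_subset _
  | succ n ih =>
    intro p l i h
    by_cases hst : Stab c y p l i
    · exact ⟨p, l, 0, Extk.refl _ _ _, by rw [add_zero]; exact hst⟩
    · unfold Stab at hst
      push Not at hst
      obtain ⟨p', l', d, hext, hns⟩ := hst
      have hlt : (AS c y p' l' (i + d)).ncard < (AS c y p l i).ncard :=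
        Set.ncard_lt_ncard ⟨anti hext, hns⟩ (Set.toFinite _)
      obtain ⟨p'', l'', d'', hext', hst'⟩ := ih p' l' (i + d) (by omega)
      exact ⟨p'', l'', d + d'', hext'.trans hext, by rw [← add_assoc]; exact hst'⟩

end

end I_ATS

theorem ANTI_pf : S_ANTI.{u} := by
  intro N _ _ _ _ S _ K _ c y p' l' d p l i h
  exact I_ATS.anti h

theorem THR_pf : S_THR.{u} := by
  intro N _ _ _ _ S _ K _ c y p l i
  exact I_ATS.thr c y p l i

theorem SYM_pf : S_SYM.{u} := by
  intro N _ _ _ _ S _ K _ c y p₁ l₁ e t p l i h1 h2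
  exact I_ATS.sym h1 h2

theorem STB_pf : S_STB.{u} := by
  intro N _ _ _ _ S _ K _ c y p l i
  exact I_ATS.stb_aux c y _ p l i le_rfl

end Pool.Agent.Work.MP_69fea5_lc.H3
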