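import Pool.Agent.Work.MP_69fea5_lc.H3.Lib

/-!
Item BSEQ: positions starting long windows which avoid the forbidden words.
-/

set_option autoImplicit false

namespace Pool.Agent.Work.MP_69fea5_lc.H3

open Pool.Agent.Work.MP_69fea5_lc.H2

universe u

namespace I_BSEQ

section

variable {N : Type u} [CommSemiring N] [LinearOrder N] {K : Type}

/-- the window of length `k` at `b` avoids the forbidden words below `k`, and `k ≤ b` -/
def P (c : N → K) (A : Set N) (k b : N) : Prop := k ≤ b ∧ Avk c (Below A k) b k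

/-- `b` is least with `P k b` -/
def L (c : N → K) (A : Set N) (k b : N) : Prop := P c A k b ∧ ∀ b' < b, ¬ P c A k b'

variable {S : Set (Set N)}

theorem dP [Finite K] (hS : Good S) {c : N → K} (hc : DK S c) {A : Set N} (hA : A ∈ S) :
    D S fun p : N × N × PUnit.{u + 1} => P c A p.1 p.2.1 := by
  refine (D.le hS (DF.v0 hS) (DF.v1 hS)).and ?_
  refine D.Avk hS hc (F := fun p : N × N × PUnit.{u + 1} => Below A p.1) ?_ (DF.v1 hS) (DF.v0 hS)
  exact (D.mem hA (DF.v0 hS)).and (D.lt hS (DF.v0 hS) (DF.v1 hS))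

theorem dL [Finite K] (hS : Good S) {c : N → K} (hc : DK S c) {A : Set N} (hA : A ∈ S) :
    D S fun p : N × N × PUnit.{u + 1} => L c A p.1 p.2.1 := by
  refine (dP hS hc hA).and ?_
  exact D.ball hS (R := fun b' (p : N × N × PUnit.{u + 1}) => ¬ P c A p.1 b')
    (D.not (D.comp2 (dP hS hc hA) (DF.v1 hS) (DF.v0 hS))) (DF.v1 hS)

end

end I_BSEQ

open I_BSEQ in
theorem BSEQ_pf : S_BSEQ.{u} := by
  intro N _ _ _ _ S hS K _ c hc A hA hF
  refine ⟨{b | ∃ k, L c A k b}, ?_, ?_, ?_⟩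
  · exact D.set0 hS (R := fun b => ∃ k, L c A k b)
      (D.ex (R := fun k (p : N × PUnit.{u + 1}) => L c A k p.1) (dL hS hc hA))
  · intro m
    obtain ⟨x, hmx, hx⟩ := hF m m m
    obtain ⟨b, hb, hb'⟩ := D.least hS (R := fun b => P c A m b)
      (D.comp2 (dP hS hc hA) (DF.const hS m) (DF.v0 hS)) ⟨x, hmx, hx⟩
    exact ⟨b, ⟨m, hb, hb'⟩, hb.1⟩
  · intro m
    obtain ⟨z, hz⟩ := D.collect hS (R := fun k b => ¬ L c A k b) (dL hS hc hA).not m (by
      intro k _
      by_cases h : ∃ b0, L c A k b0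
      · obtain ⟨b0, h0⟩ := h
        refine ⟨b0 + 1, fun b hb hL => ?_⟩
        exact hL.2 b0 (lt_of_lt_of_le (Good.lt_succ_self b0) hb) h0.1
      · exact ⟨0, fun b _ hL => h ⟨b, hL⟩⟩)
    refine ⟨z, ?_⟩
    rintro b ⟨k, hk⟩ hzb
    have hmk : m ≤ k := by
      by_contra hc'
      exact hz k (not_le.1 hc') b hzb hk
    intro p l j hpl hjl
    exact hk.1.2 p l j ⟨hpl.1, lt_of_lt_of_le hpl.2 hmk⟩ (hjl.trans hmk)

end Pool.Agent.Work.MP_69fea5_lc.H3
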