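import Pool.Agent.Work.MP_69fea5_lc.H3.Lib

set_option autoImplicit false
set_option linter.unusedSectionVars false

namespace Pool.Agent.Work.MP_69fea5_lc.H3

open Pool.Agent.Work.MP_69fea5_lc.H2

universe u

theorem C1K_pf (hCV : H2.S_CV.{u}) : S_C1K.{u} := by
  intro N _ _ _ _ S hS K _ c y hc hy _ p l i hil hst hach
  have hall : ∃ v : K, y (p + i) = v := ⟨_, rfl⟩
  obtain ⟨v, hv⟩ := hall
  rw [hv] at hach
  obtain ⟨X, hXS, hX⟩ := hCV N S hS
    (fun x F => 0 < x ∧ c x = v ∧ (∀ z < x, z ∈ F → c (x + z) = v) ∧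
      ∃ p' l' d, Extk y p' l' d p l ∧
        (∀ z < x, z ∈ F → (i + d + z < l' ∧ y (p' + (i + d) + z) = v)) ∧
        i + d + x < l' ∧ y (p' + (i + d) + x) = v)
    (by
      intro x F F' h
      have e1 : (∀ z < x, z ∈ F → c (x + z) = v) ↔ (∀ z < x, z ∈ F' → c (x + z) = v) :=
        forall_congr' fun z => forall_congr' fun hz => by rw [h z hz]
      have e2 : ∀ p' l' d : N,
          (∀ z < x, z ∈ F → (i + d + z < l' ∧ y (p' + (i + d) + z) = v)) ↔
          (∀ z < x, z ∈ F' → (i + d + z < l' ∧ y (p' + (i + d) + z) = v)) := fun p' l' d =>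
        forall_congr' fun z => forall_congr' fun hz => by rw [h z hz]
      refine and_congr_right fun _ => and_congr_right fun _ => and_congr e1 ?_
      refine exists_congr fun p' => exists_congr fun l' => exists_congr fun d => ?_
      exact and_congr_right fun _ => and_congr (e2 p' l' d) Iff.rfl)
    (by
      refine (D.lt hS (DF.zero hS) (DF.v0 hS)).and (D.and ?_ (D.and ?_ ?_))
      · exact D.kv hc (DF.v0 hS) v
      · refine D.ball hS (R := fun z (q : N × N × N × PUnit.{u + 1}) =>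
          z ∈ bs q.2.1 q.2.2.1 → c (q.1 + z) = v) ?_ (DF.v0 hS)
        refine D.imp ?_ ?_
        · exact D.bs hS (DF.v0 hS) (DF.v2 hS) (DF.v3 hS)
        · exact D.kv hc (DF.add hS (DF.v1 hS) (DF.v0 hS)) v
      · refine D.ex (R := fun p' (q : N × N × N × PUnit.{u + 1}) => ∃ l' d,
          H3.Extk y p' l' d p l ∧
          (∀ z < q.1, z ∈ bs q.2.1 q.2.2.1 → (i + d + z < l' ∧ y (p' + (i + d) + z) = v)) ∧
          i + d + q.1 < l' ∧ y (p' + (i + d) + q.1) = v) ?_
        refine D.ex (R := fun l' (q : N × N × N × N × PUnit.{u + 1}) => ∃ d,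
          H3.Extk y q.1 l' d p l ∧
          (∀ z < q.2.1, z ∈ bs q.2.2.1 q.2.2.2.1 →
            (i + d + z < l' ∧ y (q.1 + (i + d) + z) = v)) ∧
          i + d + q.2.1 < l' ∧ y (q.1 + (i + d) + q.2.1) = v) ?_
        refine D.ex (R := fun d (q : N × N × N × N × N × PUnit.{u + 1}) =>
          H3.Extk y q.2.1 q.1 d p l ∧
          (∀ z < q.2.2.1, z ∈ bs q.2.2.2.1 q.2.2.2.2.1 →
            (i + d + z < q.1 ∧ y (q.2.1 + (i + d) + z) = v)) ∧
          i + d + q.2.2.1 < q.1 ∧ y (q.2.1 + (i + d) + q.2.2.1) = v) ?_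
        refine D.and ?_ (D.and ?_ (D.and ?_ ?_))
        · exact D.Extk hS hy (DF.v2 hS) (DF.v1 hS) (DF.v0 hS) (DF.const hS p) (DF.const hS l)
        · refine D.ball hS (R := fun z (q : N × N × N × N × N × N × PUnit.{u + 1}) =>
            z ∈ bs q.2.2.2.2.1 q.2.2.2.2.2.1 →
            (i + q.1 + z < q.2.1 ∧ y (q.2.2.1 + (i + q.1) + z) = v)) ?_ (DF.v3 hS)
          refine D.imp ?_ (D.and ?_ ?_)
          · exact D.bs hS (DF.v0 hS) (DF.v5 hS) (DF.v6 hS)
          · exact D.lt hS (DF.add hS (DF.add hS (DF.const hS i) (DF.v1 hS)) (DF.v0 hS)) (DF.v2 hS)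
          · exact D.kv hy (DF.add hS (DF.add hS (DF.v3 hS)
              (DF.add hS (DF.const hS i) (DF.v1 hS))) (DF.v0 hS)) v
        · exact D.lt hS (DF.add hS (DF.add hS (DF.const hS i) (DF.v0 hS)) (DF.v3 hS)) (DF.v1 hS)
        · exact D.kv hy (DF.add hS (DF.add hS (DF.v2 hS)
              (DF.add hS (DF.const hS i) (DF.v0 hS))) (DF.v3 hS)) v)
  refine ⟨X, hXS, ?_, ?_⟩
  · intro m
    by_contra hcon
    push Not at hcon
    have key : ∀ n, ∃ p' l' d, Extk y p' l' d p l ∧
        ∀ z < n, z ∈ X → (i + d + z < l' ∧ y (p' + (i + d) + z) = v) := by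
      refine D.induct hS (R := fun n => ∃ p' l' d, H3.Extk y p' l' d p l ∧
        ∀ z < n, z ∈ X → (i + d + z < l' ∧ y (p' + (i + d) + z) = v)) ?_ ?_ ?_
      · refine D.ex (R := fun p' (q : N × PUnit.{u + 1}) => ∃ l' d, H3.Extk y p' l' d p l ∧
          (∀ z < q.1, z ∈ X → (i + d + z < l' ∧ y (p' + (i + d) + z) = v))) ?_
        refine D.ex (R := fun l' (q : N × N × PUnit.{u + 1}) => ∃ d,
          H3.Extk y q.1 l' d p l ∧
          (∀ z < q.2.1, z ∈ X → (i + d + z < l' ∧ y (q.1 + (i + d) + z) = v))) ?_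
        refine D.ex (R := fun d (q : N × N × N × PUnit.{u + 1}) =>
          H3.Extk y q.2.1 q.1 d p l ∧
          (∀ z < q.2.2.1, z ∈ X → (i + d + z < q.1 ∧ y (q.2.1 + (i + d) + z) = v))) ?_
        refine D.and ?_ ?_
        · exact D.Extk hS hy (DF.v2 hS) (DF.v1 hS) (DF.v0 hS) (DF.const hS p) (DF.const hS l)
        · refine D.ball hS (R := fun z (q : N × N × N × N × PUnit.{u + 1}) =>
            z ∈ X → (i + q.1 + z < q.2.1 ∧ y (q.2.2.1 + (i + q.1) + z) = v)) ?_ (DF.v3 hS)
          refine D.imp ?_ (D.and ?_ ?_)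
          · exact D.mem hXS (DF.v0 hS)
          · exact D.lt hS (DF.add hS (DF.add hS (DF.const hS i) (DF.v1 hS)) (DF.v0 hS)) (DF.v2 hS)
          · exact D.kv hy (DF.add hS (DF.add hS (DF.v3 hS)
              (DF.add hS (DF.const hS i) (DF.v1 hS))) (DF.v0 hS)) v
      · exact ⟨p, l, 0, Extk.refl y p l, fun z hz => absurd hz (not_lt.2 zero_le)⟩
      · rintro n ⟨p', l', d, hE, hz⟩
        by_cases hn : n ∈ X
        · obtain ⟨_, _, _, p'', l'', d'', hE', hz', h1, h2⟩ := (hX n).1 hn
          refine ⟨p'', l'', d'', hE', fun z hzn hzX => ?_⟩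
          rcases (hS.le_of_lt_succ hzn).lt_or_eq with h | h
          · exact hz' z h hzX
          · subst h
            exact ⟨h1, h2⟩
        · refine ⟨p', l', d, hE, fun z hzn hzX => ?_⟩
          rcases (hS.le_of_lt_succ hzn).lt_or_eq with h | h
          · exact hz z h hzX
          · subst h
            exact absurd hzX hn
    obtain ⟨p', l', d, hE, hz⟩ := key m
    have hB : Ach c y p' l' (i + d) v := hst p' l' d hE hach
    obtain ⟨s, hs, hWs, q, hWq, hnq⟩ := hB (m + 1)
    have hdl : d + l ≤ l' := hE.1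
    have hid : i + d < l' := lt_of_lt_of_le (by grind) hdl
    have hpi : y (p' + (i + d)) = v := by
      have h1 := hE.2 i hil
      have e : p' + d + i = p' + (i + d) := by ring
      rw [e] at h1
      exact h1.trans hv
    have hms : m < s + (i + d) := by
      have h0 : (0 : N) ≤ i + d := zero_le
      have h1 : m < s := lt_of_lt_of_le (Good.lt_succ_self m) hs
      exact lt_of_lt_of_le h1 le_self_add
    have hxX : s + (i + d) ∈ X := by
      refine (hX _).2 ⟨lt_of_le_of_lt zero_le hms, ?_, ?_, ?_⟩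
      · exact (hWs (i + d) hid).trans hpi
      · intro z _ hzX
        obtain ⟨h1, h2⟩ := hz z (hcon z hzX) hzX
        have h3 := hWs (i + d + z) h1
        have e1 : s + (i + d) + z = s + (i + d + z) := by ring
        have e2 : p' + (i + d) + z = p' + (i + d + z) := by ring
        rw [e1]
        rw [e2] at h2
        exact h3.trans h2
      · refine ⟨q, max (i + d + (s + (i + d)) + 1) l', d, ⟨hdl.trans (le_max_right _ _), ?_⟩,
          ?_, ?_, ?_⟩
        · exact (hWq.sub hdl).trans hE.2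
        · intro z _ hzX
          obtain ⟨h1, h2⟩ := hz z (hcon z hzX) hzX
          refine ⟨lt_of_lt_of_le h1 (le_max_right _ _), ?_⟩
          have h3 := hWq (i + d + z) h1
          have e1 : q + (i + d) + z = q + (i + d + z) := by ring
          have e2 : p' + (i + d) + z = p' + (i + d + z) := by ring
          rw [e1]
          rw [e2] at h2
          exact h3.trans h2
        · exact lt_of_lt_of_le (Good.lt_succ_self _) (le_max_left _ _)
        · exact hnq
    exact absurd (hcon _ hxX) (not_lt.2 hms.le)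
  · intro x hxX
    obtain ⟨h1, h2, h3, _⟩ := (hX x).1 hxX
    rw [hv]
    exact ⟨h1, h2, fun z hzX hzx => h3 z hzx hzX⟩

end Pool.Agent.Work.MP_69fea5_lc.H3
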