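import Pool.Agent.Work.MP_69fea5_lc.H3.Lib

/-!
Item DATA of block [69fea5 H3] (helper88): definability of `Rel` and a common bound for the data
of all `w < n` with `Rel`.
-/

set_option autoImplicit false
set_option linter.unusedSectionVars false

namespace Pool.Agent.Work.MP_69fea5_lc.H3

open Pool.Agent.Work.MP_69fea5_lc.H2

universe u

namespace I_DATA

variable {N : Type u} [CommSemiring N] [LinearOrder N] {K : Type}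
variable {S : Set (Set N)}

/-- `Rel` is definable -/
theorem dRel [Finite K] (hS : Good S) {c y : N → K} (hc : DK S c) (hy : DK S y)
    {G : N → N → K} (hG : ∀ v, D S fun p : N × N × PUnit.{u + 1} => G p.1 p.2.1 = v)
    (m₀ : N) (a : Set K) : D S fun p : N × PUnit.{u + 1} => Rel c y G m₀ a p.1 := by
  refine D.ex (R := fun p (x : N × PUnit.{u + 1}) => ∃ l i m f₁ f₂, H3.FM c y G m₀ p l i ∧
    H3.AS c y p l i = a ∧ H3.Occ y G 0 f₁ p l ∧ H3.Occ y G m f₂ p l ∧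
    f₁ + f₂ + i + i = m + x.1) ?_
  refine D.ex (R := fun l (x : N × N × PUnit.{u + 1}) => ∃ i m f₁ f₂, H3.FM c y G m₀ x.1 l i ∧
    H3.AS c y x.1 l i = a ∧ H3.Occ y G 0 f₁ x.1 l ∧ H3.Occ y G m f₂ x.1 l ∧
    f₁ + f₂ + i + i = m + x.2.1) ?_
  refine D.ex (R := fun i (x : N × N × N × PUnit.{u + 1}) => ∃ m f₁ f₂,
    H3.FM c y G m₀ x.2.1 x.1 i ∧
    H3.AS c y x.2.1 x.1 i = a ∧ H3.Occ y G 0 f₁ x.2.1 x.1 ∧ H3.Occ y G m f₂ x.2.1 x.1 ∧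
    f₁ + f₂ + i + i = m + x.2.2.1) ?_
  refine D.ex (R := fun m (x : N × N × N × N × PUnit.{u + 1}) => ∃ f₁ f₂,
    H3.FM c y G m₀ x.2.2.1 x.2.1 x.1 ∧
    H3.AS c y x.2.2.1 x.2.1 x.1 = a ∧ H3.Occ y G 0 f₁ x.2.2.1 x.2.1 ∧
    H3.Occ y G m f₂ x.2.2.1 x.2.1 ∧
    f₁ + f₂ + x.1 + x.1 = m + x.2.2.2.1) ?_
  refine D.ex (R := fun f₁ (x : N × N × N × N × N × PUnit.{u + 1}) => ∃ f₂,
    H3.FM c y G m₀ x.2.2.2.1 x.2.2.1 x.2.1 ∧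
    H3.AS c y x.2.2.2.1 x.2.2.1 x.2.1 = a ∧ H3.Occ y G 0 f₁ x.2.2.2.1 x.2.2.1 ∧
    H3.Occ y G x.1 f₂ x.2.2.2.1 x.2.2.1 ∧
    f₁ + f₂ + x.2.1 + x.2.1 = x.1 + x.2.2.2.2.1) ?_
  refine D.ex (R := fun f₂ (x : N × N × N × N × N × N × PUnit.{u + 1}) =>
    H3.FM c y G m₀ x.2.2.2.2.1 x.2.2.2.1 x.2.2.1 ∧
    H3.AS c y x.2.2.2.2.1 x.2.2.2.1 x.2.2.1 = a ∧ H3.Occ y G 0 x.1 x.2.2.2.2.1 x.2.2.2.1 ∧
    H3.Occ y G x.2.1 f₂ x.2.2.2.2.1 x.2.2.2.1 ∧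
    x.1 + f₂ + x.2.2.1 + x.2.2.1 = x.2.1 + x.2.2.2.2.2.1) ?_
  refine (D.FM hS hc hy hG (DF.const hS m₀) (DF.v5 hS) (DF.v4 hS) (DF.v3 hS)).and ?_
  refine (D.AS hS hc hy (DF.v5 hS) (DF.v4 hS) (DF.v3 hS) a).and ?_
  refine (D.Occ hS hy hG (DF.const hS 0) (DF.v1 hS) (DF.v5 hS) (DF.v4 hS)).and ?_
  refine (D.Occ hS hy hG (DF.v2 hS) (DF.v0 hS) (DF.v5 hS) (DF.v4 hS)).and ?_
  exact D.eq (DF.add hS (DF.add hS (DF.add hS (DF.v1 hS) (DF.v0 hS)) (DF.v3 hS)) (DF.v3 hS))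
    (DF.add hS (DF.v2 hS) (DF.v6 hS))

/-- the threshold condition is definable -/
theorem dThr [Finite K] (hS : Good S) {c y : N → K} (hc : DK S c) (hy : DK S y)
    {α : Type u} [Cx N α] {p l i d : α → N} (hp : DF S p) (hl : DF S l) (hi : DF S i)
    (hd : DF S d) (a : Set K) :
    D S fun x => ∀ s, d x ≤ s → H3.Wk c s y (p x) (l x) → ∀ q, H3.Wk y q y (p x) (l x) →
      y (q + i x + (s + i x)) ∈ a := by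
  refine D.all (R := fun s x => d x ≤ s → H3.Wk c s y (p x) (l x) → ∀ q,
    H3.Wk y q y (p x) (l x) → y (q + i x + (s + i x)) ∈ a) ?_
  refine (D.le hS hd.wk (DF.v0 hS)).imp ?_
  refine (D.Wk hS hc hy (DF.v0 hS) hp.wk hl.wk).imp ?_
  refine D.all (R := fun q (x : N × α) => H3.Wk y q y (p x.2) (l x.2) →
    y (q + i x.2 + (x.1 + i x.2)) ∈ a) ?_
  refine (D.Wk hS hy hy (DF.v0 hS) hp.wk.wk hl.wk.wk).imp ?_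
  exact D.kT hS hy (DF.add hS (DF.add hS (DF.v0 hS) hi.wk.wk)
    (DF.add hS (DF.v1 hS) hi.wk.wk)) a

/-- `RelB` is definable -/
theorem dRelB [Finite K] (hS : Good S) {c y : N → K} (hc : DK S c) (hy : DK S y)
    {G : N → N → K} (hG : ∀ v, D S fun p : N × N × PUnit.{u + 1} => G p.1 p.2.1 = v)
    (m₀ : N) (a : Set K) :
    D S fun p : N × N × PUnit.{u + 1} => RelB c y G m₀ a p.1 p.2.1 := by
  refine D.ex (R := fun p (x : N × N × PUnit.{u + 1}) => ∃ l i m f₁ f₂,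
    H3.FM c y G m₀ p l i ∧
    H3.AS c y p l i = a ∧ H3.Occ y G 0 f₁ p l ∧ H3.Occ y G m f₂ p l ∧
    f₁ + f₂ + i + i = m + x.1 ∧ m ≤ x.2.1 ∧ f₁ + l ≤ x.2.1 ∧ f₂ + l ≤ x.2.1 ∧ i ≤ x.2.1 ∧
    ∀ s, x.2.1 ≤ s → H3.Wk c s y p l → ∀ q, H3.Wk y q y p l → y (q + i + (s + i)) ∈ a) ?_
  refine D.ex (R := fun l (x : N × N × N × PUnit.{u + 1}) => ∃ i m f₁ f₂,
    H3.FM c y G m₀ x.1 l i ∧
    H3.AS c y x.1 l i = a ∧ H3.Occ y G 0 f₁ x.1 l ∧ H3.Occ y G m f₂ x.1 l ∧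
    f₁ + f₂ + i + i = m + x.2.1 ∧ m ≤ x.2.2.1 ∧ f₁ + l ≤ x.2.2.1 ∧ f₂ + l ≤ x.2.2.1 ∧
    i ≤ x.2.2.1 ∧
    ∀ s, x.2.2.1 ≤ s → H3.Wk c s y x.1 l → ∀ q, H3.Wk y q y x.1 l →
      y (q + i + (s + i)) ∈ a) ?_
  refine D.ex (R := fun i (x : N × N × N × N × PUnit.{u + 1}) => ∃ m f₁ f₂,
    H3.FM c y G m₀ x.2.1 x.1 i ∧
    H3.AS c y x.2.1 x.1 i = a ∧ H3.Occ y G 0 f₁ x.2.1 x.1 ∧ H3.Occ y G m f₂ x.2.1 x.1 ∧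
    f₁ + f₂ + i + i = m + x.2.2.1 ∧ m ≤ x.2.2.2.1 ∧ f₁ + x.1 ≤ x.2.2.2.1 ∧
    f₂ + x.1 ≤ x.2.2.2.1 ∧ i ≤ x.2.2.2.1 ∧
    ∀ s, x.2.2.2.1 ≤ s → H3.Wk c s y x.2.1 x.1 → ∀ q, H3.Wk y q y x.2.1 x.1 →
      y (q + i + (s + i)) ∈ a) ?_
  refine D.ex (R := fun m (x : N × N × N × N × N × PUnit.{u + 1}) => ∃ f₁ f₂,
    H3.FM c y G m₀ x.2.2.1 x.2.1 x.1 ∧
    H3.AS c y x.2.2.1 x.2.1 x.1 = a ∧ H3.Occ y G 0 f₁ x.2.2.1 x.2.1 ∧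
    H3.Occ y G m f₂ x.2.2.1 x.2.1 ∧
    f₁ + f₂ + x.1 + x.1 = m + x.2.2.2.1 ∧ m ≤ x.2.2.2.2.1 ∧ f₁ + x.2.1 ≤ x.2.2.2.2.1 ∧
    f₂ + x.2.1 ≤ x.2.2.2.2.1 ∧ x.1 ≤ x.2.2.2.2.1 ∧
    ∀ s, x.2.2.2.2.1 ≤ s → H3.Wk c s y x.2.2.1 x.2.1 → ∀ q, H3.Wk y q y x.2.2.1 x.2.1 →
      y (q + x.1 + (s + x.1)) ∈ a) ?_
  refine D.ex (R := fun f₁ (x : N × N × N × N × N × N × PUnit.{u + 1}) => ∃ f₂,
    H3.FM c y G m₀ x.2.2.2.1 x.2.2.1 x.2.1 ∧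
    H3.AS c y x.2.2.2.1 x.2.2.1 x.2.1 = a ∧ H3.Occ y G 0 f₁ x.2.2.2.1 x.2.2.1 ∧
    H3.Occ y G x.1 f₂ x.2.2.2.1 x.2.2.1 ∧
    f₁ + f₂ + x.2.1 + x.2.1 = x.1 + x.2.2.2.2.1 ∧ x.1 ≤ x.2.2.2.2.2.1 ∧
    f₁ + x.2.2.1 ≤ x.2.2.2.2.2.1 ∧ f₂ + x.2.2.1 ≤ x.2.2.2.2.2.1 ∧ x.2.1 ≤ x.2.2.2.2.2.1 ∧
    ∀ s, x.2.2.2.2.2.1 ≤ s → H3.Wk c s y x.2.2.2.1 x.2.2.1 → ∀ q,
      H3.Wk y q y x.2.2.2.1 x.2.2.1 → y (q + x.2.1 + (s + x.2.1)) ∈ a) ?_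
  refine D.ex (R := fun f₂ (x : N × N × N × N × N × N × N × PUnit.{u + 1}) =>
    H3.FM c y G m₀ x.2.2.2.2.1 x.2.2.2.1 x.2.2.1 ∧
    H3.AS c y x.2.2.2.2.1 x.2.2.2.1 x.2.2.1 = a ∧ H3.Occ y G 0 x.1 x.2.2.2.2.1 x.2.2.2.1 ∧
    H3.Occ y G x.2.1 f₂ x.2.2.2.2.1 x.2.2.2.1 ∧
    x.1 + f₂ + x.2.2.1 + x.2.2.1 = x.2.1 + x.2.2.2.2.2.1 ∧ x.2.1 ≤ x.2.2.2.2.2.2.1 ∧
    x.1 + x.2.2.2.1 ≤ x.2.2.2.2.2.2.1 ∧ f₂ + x.2.2.2.1 ≤ x.2.2.2.2.2.2.1 ∧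
    x.2.2.1 ≤ x.2.2.2.2.2.2.1 ∧
    ∀ s, x.2.2.2.2.2.2.1 ≤ s → H3.Wk c s y x.2.2.2.2.1 x.2.2.2.1 → ∀ q,
      H3.Wk y q y x.2.2.2.2.1 x.2.2.2.1 → y (q + x.2.2.1 + (s + x.2.2.1)) ∈ a) ?_
  refine (D.FM hS hc hy hG (DF.const hS m₀) (DF.v5 hS) (DF.v4 hS) (DF.v3 hS)).and ?_
  refine (D.AS hS hc hy (DF.v5 hS) (DF.v4 hS) (DF.v3 hS) a).and ?_
  refine (D.Occ hS hy hG (DF.const hS 0) (DF.v1 hS) (DF.v5 hS) (DF.v4 hS)).and ?_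
  refine (D.Occ hS hy hG (DF.v2 hS) (DF.v0 hS) (DF.v5 hS) (DF.v4 hS)).and ?_
  refine (D.eq (DF.add hS (DF.add hS (DF.add hS (DF.v1 hS) (DF.v0 hS)) (DF.v3 hS)) (DF.v3 hS))
    (DF.add hS (DF.v2 hS) (DF.v6 hS))).and ?_
  refine (D.le hS (DF.v2 hS) (DF.v7 hS)).and ?_
  refine (D.le hS (DF.add hS (DF.v1 hS) (DF.v4 hS)) (DF.v7 hS)).and ?_
  refine (D.le hS (DF.add hS (DF.v0 hS) (DF.v4 hS)) (DF.v7 hS)).and ?_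
  refine (D.le hS (DF.v3 hS) (DF.v7 hS)).and ?_
  exact dThr hS hc hy (DF.v5 hS) (DF.v4 hS) (DF.v3 hS) (DF.v7 hS) a

variable [IsStrictOrderedRing N] [CanonicallyOrderedAdd N]

/-- `Rel` gives `RelB` for all large bounds -/
theorem bound [Finite K] (hTHR : S_THR.{u}) (hS : Good S) {c y : N → K} {G : N → N → K}
    {m₀ : N} {a : Set K} {w : N} (h : Rel c y G m₀ a w) :
    ∃ z, ∀ b, z ≤ b → RelB c y G m₀ a w b := by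
  obtain ⟨p, l, i, m, f₁, f₂, hF, hA, ho₁, ho₂, he⟩ := h
  obtain ⟨n, hn⟩ := hTHR N S hS K c y p l i
  refine ⟨m + (f₁ + l) + (f₂ + l) + i + n, fun b hb =>
    ⟨p, l, i, m, f₁, f₂, hF, hA, ho₁, ho₂, he, ?_, ?_, ?_, ?_, ?_⟩⟩
  · refine le_trans ?_ hb
    rw [add_assoc, add_assoc, add_assoc]
    exact le_self_add
  · refine le_trans ?_ hb
    rw [add_assoc, add_assoc, add_comm m, add_assoc]
    exact le_self_add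
  · refine le_trans ?_ hb
    rw [add_assoc, add_comm (m + (f₁ + l)), add_assoc]
    exact le_self_add
  · refine le_trans ?_ hb
    rw [add_comm _ i, add_assoc]
    exact le_self_add
  · intro s hs hW q hq
    have hns : n ≤ s := by
      refine le_trans ?_ (hb.trans hs)
      rw [add_comm _ n]
      exact le_self_add
    rw [← hA]
    exact hn s hns hW q hq

end I_DATA

theorem RELD_pf : S_RELD.{u} := by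
  intro N _ _ _ _ S hS K _ c y B G m₀ a hc hy hG
  exact I_DATA.dRel hS hc hy hG.dfn m₀ a

theorem DATA_pf (hTHR : S_THR.{u}) : S_DATA.{u} := by
  intro N _ _ _ _ S hS K _ c y B G m₀ a hc hy hG n
  obtain ⟨z, hz⟩ := D.collect hS (R := fun w b => Rel c y G m₀ a w → RelB c y G m₀ a w b)
    (D.imp (D.comp1 (R := fun w => Rel c y G m₀ a w) (I_DATA.dRel hS hc hy hG.dfn m₀ a)
      (DF.v0 hS)) (I_DATA.dRelB hS hc hy hG.dfn m₀ a)) n (fun w _ => by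
        by_cases h : Rel c y G m₀ a w
        · obtain ⟨z, hz⟩ := I_DATA.bound hTHR hS h
          exact ⟨z, fun b hb _ => hz b hb⟩
        · exact ⟨0, fun b _ h' => absurd h' h⟩)
  exact ⟨z, fun w hw h => hz w hw z le_rfl h⟩

end Pool.Agent.Work.MP_69fea5_lc.H3
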