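import Pool.Agent.Work.MP_69fea5_lc.H3.Lib

/-!
Item FORBK: existence of the greedy set of forbidden words, by course of values recursion.
-/

set_option autoImplicit false

namespace Pool.Agent.Work.MP_69fea5_lc.H3

open Pool.Agent.Work.MP_69fea5_lc.H2

universe u

namespace I_FORBK

/-- the set used at stage `i` only depends on `F` below `i` -/
theorem stage_congr {N : Type u} [LinearOrder N] {x : N} {F F' : Set N}
    (hF : ∀ k < x, (k ∈ F ↔ k ∈ F')) :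
    {k | (k ∈ F ∧ k < x) ∨ k = x} = {k | (k ∈ F' ∧ k < x) ∨ k = x} := by
  ext k
  simp only [Set.mem_setOf_eq]
  constructor
  · rintro (⟨h1, h2⟩ | h1)
    · exact Or.inl ⟨(hF k h2).1 h1, h2⟩
    · exact Or.inr h1
  · rintro (⟨h1, h2⟩ | h1)
    · exact Or.inl ⟨(hF k h2).2 h1, h2⟩
    · exact Or.inr h1

end I_FORBK

theorem FORBK_pf (hCV : H2.S_CV.{u}) : S_FORBK.{u} := by
  intro N _ _ _ _ S hS K _ c hc
  refine hCV N S hS
    (fun i F => (∃ p l, i = pr p l) ∧ Freek c {k | (k ∈ F ∧ k < i) ∨ k = i}) ?_ ?_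
  · intro x F F' hF
    show ((∃ p l, x = pr p l) ∧ Freek c {k | (k ∈ F ∧ k < x) ∨ k = x}) ↔
      ((∃ p l, x = pr p l) ∧ Freek c {k | (k ∈ F' ∧ k < x) ∨ k = x})
    rw [I_FORBK.stage_congr hF]
  · refine D.and ?_ ?_
    · refine D.ex (R := fun p (a : N × N × N × PUnit.{u + 1}) => ∃ l, a.1 = H2.pr p l) ?_
      refine D.ex (R := fun l (a : N × N × N × N × PUnit.{u + 1}) => a.2.1 = H2.pr a.1 l) ?_
      exact D.eq (DF.v2 hS) (DF.pr hS (DF.v1 hS) (DF.v0 hS))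
    · refine D.Freek hS hc (α := N × N × N × PUnit.{u + 1})
        (F := fun a => {k | (k ∈ bs (a.2.1) (a.2.2.1) ∧ k < a.1) ∨ k = a.1}) ?_
      show D S fun p : N × N × N × N × PUnit.{u + 1} =>
        (p.1 ∈ bs (p.2.2.1) (p.2.2.2.1) ∧ p.1 < p.2.1) ∨ p.1 = p.2.1
      refine D.or (D.and ?_ ?_) ?_
      · exact D.bs hS (DF.v0 hS) (DF.v2 hS) (DF.v3 hS)
      · exact D.lt hS (DF.v0 hS) (DF.v1 hS)
      · exact D.eq (DF.v0 hS) (DF.v1 hS)

end Pool.Agent.Work.MP_69fea5_lc.H3
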