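import Pool.Agent.Work.MP_69fea5_lc.H3.Lib

/-!
Item GLIMK: the double limit, finitely many colours.
-/

set_option autoImplicit false
set_option linter.unusedSectionVars false

namespace Pool.Agent.Work.MP_69fea5_lc.H3

open Pool.Agent.Work.MP_69fea5_lc.H2

universe u

namespace I_GLIMK

variable {N : Type u} [CommSemiring N] [LinearOrder N] [IsStrictOrderedRing N]
  [CanonicallyOrderedAdd N] {K : Type}

/-- the relation whose limit along `B'` is taken -/
def P (h : N → K) (v : K) (m t b : N) : Prop := ∃ x, x + t = b + m ∧ h x = v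

theorem P_shift (h : N → K) (v : K) (m t r b : N) :
    P h v (m + r) (t + r) b ↔ P h v m t b := by
  constructor
  · rintro ⟨x, h1, hx⟩
    refine ⟨x, ?_, hx⟩
    have h2 : x + t + r = b + m + r := by rw [add_assoc, h1, add_assoc]
    exact add_right_cancel h2
  · rintro ⟨x, h1, hx⟩
    refine ⟨x, ?_, hx⟩
    rw [← add_assoc, h1, add_assoc]

theorem P_uniq {h : N → K} {v w : K} {m t b : N} (h1 : P h v m t b) (h2 : P h w m t b) :
    v = w := by
  obtain ⟨x, hx, hv⟩ := h1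
  obtain ⟨x', hx', hw⟩ := h2
  have : x = x' := add_right_cancel (hx.trans hx'.symm)
  rw [← hv, ← hw, this]

theorem Ev_uniq {h : N → K} {B' : Set N} (hU : Unb B') {v w : K} {m t : N}
    (h1 : Ev B' (P h v m t)) (h2 : Ev B' (P h w m t)) : v = w := by
  obtain ⟨b, _, _, hb⟩ := Ev.exists hU (h1.and h2) 0
  exact P_uniq hb.1 hb.2

theorem dich {h h1 h2 : N → K} {B' : Set N}
    (H1 : ∀ n, Ev B' (fun b => h (b + n) = h1 n))
    (H2 : ∀ n, Ev B' (fun b => ∃ x, x + n = b ∧ h x = h2 n)) (m t : N) :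
    ∃ v, Ev B' (P h v m t) := by
  rcases le_total t m with hl | hl
  · obtain ⟨n, rfl⟩ := exists_add hl
    refine ⟨h1 n, (H1 n).mono fun b _ hb => ⟨b + n, ?_, hb⟩⟩
    rw [add_assoc, add_comm n t]
  · obtain ⟨n, rfl⟩ := exists_add hl
    refine ⟨h2 n, (H2 n).mono fun b _ hb => ?_⟩
    obtain ⟨x, hx, hv⟩ := hb
    refine ⟨x, ?_, hv⟩
    rw [← hx, add_comm m n, add_assoc]

variable {S : Set (Set N)}

/-- definability of `P` -/
theorem dP [Finite K] (hS : Good S) {h : N → K} (hh : DK S h) {α : Type u} [Cx N α]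
    {m t b : α → N} (v : K)
    (hm : DF S m) (ht : DF S t) (hb : DF S b) : D S fun a => P h v (m a) (t a) (b a) := by
  refine D.ex (R := fun x a => x + t a = b a + m a ∧ h x = v) ?_
  exact (D.eq (DF.add hS (DF.v0 hS) ht.wk) (DF.add hS hb.wk hm.wk)).and
    (D.kv hh (DF.v0 hS) v)

theorem dG [Finite K] (hS : Good S) {h : N → K} {B' : Set N} (hh : DK S h) (hB' : B' ∈ S)
    {α : Type u} [Cx N α] {m t : α → N} (v : K) (hm : DF S m) (ht : DF S t) :
    D S fun a => Ev B' (P h v (m a) (t a)) :=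
  D.Ev hS hB' (P := fun b a => P h v (m a) (t a) b) (dP hS hh v hm.wk ht.wk (DF.v0 hS))

end I_GLIMK

open I_GLIMK in
theorem GLIMK_pf (hLIMK : S_LIMK.{u}) : S_GLIMK.{u} := by
  intro N _ _ _ _ S hS K _ c y hc hy B hB h hh hUB hlim hwin
  obtain ⟨B1, hB1, hB1B, hU1, h1, -, hh1⟩ := hLIMK N S hS K (fun v n b => h (b + n) = v)
    (fun v => D.kv hh (DF.add hS (DF.v1 hS) (DF.v0 hS)) v)
    (fun v w n b hv hw => hv.symm.trans hw) B hB hUB
    (fun n => ⟨0, fun b _ _ => ⟨_, rfl⟩⟩)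
  obtain ⟨B', hB', hB'B1, hU', h2, -, hh2⟩ := hLIMK N S hS K
    (fun v n b => ∃ x, x + n = b ∧ h x = v)
    (fun v => D.ex (R := fun x (p : N × N × PUnit.{u + 1}) => x + p.1 = p.2.1 ∧ h x = v)
      ((D.eq (DF.add hS (DF.v0 hS) (DF.v1 hS)) (DF.v2 hS)).and (D.kv hh (DF.v0 hS) v)))
    (fun v w n b hv hw => by
      obtain ⟨x, hx, hv⟩ := hv
      obtain ⟨x', hx', hw⟩ := hw
      have : x = x' := add_right_cancel (hx.trans hx'.symm)
      rw [← hv, ← hw, this])
    B1 hB1 hU1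
    (fun n => ⟨n, fun b _ hb => by
      obtain ⟨x, hx⟩ := exists_add hb
      exact ⟨h x, x, by rw [hx, add_comm], rfl⟩⟩)
  have hd := dich (fun n => (hh1 n).subset hB'B1) hh2
  choose G hG using hd
  have hGv : ∀ v m t, G m t = v ↔ Ev B' (P h v m t) := by
    intro v m t
    constructor
    · rintro rfl; exact hG m t
    · intro h'; exact Ev_uniq hU' (hG m t) h'
  -- uniform version
  have hball : ∀ m l, Ev B' fun b => ∀ t < l, P h (G m t) m t b := by
    intro m l
    refine Ev.ball hS hB' (R := fun t b => P h (G m t) m t b) ?_ l fun t _ => hG m t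
    refine (D.exK hS (R := fun v (p : N × N × PUnit.{u + 1}) =>
      Ev B' (P h v m p.1) ∧ P h v m p.1 p.2.1) fun v =>
      (dG hS hh hB' v (DF.const hS m) (DF.v0 hS)).and
        (dP hS hh v (DF.const hS m) (DF.v0 hS) (DF.v1 hS))).congr fun p => ?_
    constructor
    · intro h'; exact ⟨_, hG m p.1, h'⟩
    · rintro ⟨v, hv1, hv2⟩
      rw [(hGv v m p.1).2 hv1]
      exact hv2
  refine ⟨B', G, hB', hU', ?_, ?_, ?_, ?_⟩
  · intro v
    exact (dG hS hh hB' v (DF.v0 hS) (DF.v1 hS)).congr fun p => hGv v p.1 p.2.1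
  · intro m t r
    rw [hGv]
    exact (hG m t).mono fun b _ hb => (P_shift h _ m t r b).2 hb
  · intro m l
    obtain ⟨b, _, hlb, hb⟩ := Ev.exists hU' (hball m l) l
    obtain ⟨q, hq⟩ := hwin (b + m)
    refine ⟨q, fun t ht => ?_⟩
    obtain ⟨x, hx, hv⟩ := hb t ht
    rw [← hv]
    exact hq x t hx
  · intro l
    refine ((hball 0 l).and (Ev.ge B' l)).mono fun b hbB hb => ?_
    obtain ⟨hb1, hb2⟩ := hb
    refine (((hlim b).subset hB1B).subset hB'B1).mono fun b' _ hb' t ht z hz => ?_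
    have htb : t ≤ b := ht.le.trans hb2
    obtain ⟨w, hw⟩ := exists_add htb
    have h3 : z + t + w = b' := by rw [add_assoc, ← hw, hz]
    have hwb : w ≤ b := by rw [hw]; exact le_add_self
    rw [hb' w hwb (z + t) h3]
    obtain ⟨x, hx, hv⟩ := hb1 t ht
    have h4 : x + t = w + t := by rw [hx, add_zero, hw, add_comm]
    rw [← hv, add_right_cancel h4]

end Pool.Agent.Work.MP_69fea5_lc.H3
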