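import Pool.Agent.Work.MP_69fea5_lc.H3.Lib

set_option autoImplicit false

namespace Pool.Agent.Work.MP_69fea5_lc.H3

open Pool.Agent.Work.MP_69fea5_lc.H2

universe u

theorem GRDK_pf (hCV : H2.S_CV.{u}) : S_GRDK.{u} := by
  intro N _ _ _ _ S hS K _ c R T hc hR hx
  obtain ⟨X, hXS, hX⟩ := hCV N S hS
    (fun x F => 0 < x ∧ R x ∧ c x ∈ T ∧ ∀ y < x, y ∈ F → c (x + y) ∈ T)
    (by
      intro x F F' h
      refine and_congr_right fun _ => and_congr_right fun _ => and_congr_right fun _ => ?_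
      exact forall_congr' fun y => forall_congr' fun hy => by rw [h y hy])
    (by
      refine (D.lt hS (DF.zero hS) (DF.v0 hS)).and (D.and ?_ (D.and ?_ ?_))
      · exact D.comp1 (R := R) hR (DF.v0 hS)
      · exact D.kT hS hc (DF.v0 hS) T
      · refine D.ball hS (R := fun y (p : N × N × N × PUnit.{u + 1}) =>
          y ∈ bs p.2.1 p.2.2.1 → c (p.1 + y) ∈ T) ?_ (DF.v0 hS)
        refine D.imp ?_ ?_
        · exact D.bs hS (DF.v0 hS) (DF.v2 hS) (DF.v3 hS)
        · exact D.kT hS hc (DF.add hS (DF.v1 hS) (DF.v0 hS)) T)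
  refine ⟨X, hXS, ?_, ?_⟩
  · intro m
    by_contra hcon
    push Not at hcon
    obtain ⟨x, hmx, hRx, hcx, hs⟩ := hx (m + 1)
    have hm : m < x := lt_of_lt_of_le (Good.lt_succ_self m) hmx
    have hxX : x ∈ X := by
      refine (hX x).2 ⟨lt_of_le_of_lt zero_le hm, hRx, hcx, ?_⟩
      intro y _ hyX
      have hym : y < m := hcon y hyX
      exact hs y (hym.trans (Good.lt_succ_self m)) ((hX y).1 hyX).2.1
    exact absurd (hcon x hxX) (not_lt.2 hm.le)
  · intro x hxX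
    obtain ⟨h1, _, h3, h4⟩ := (hX x).1 hxX
    exact ⟨h1, h3, fun y hy hyx => h4 y hyx hy⟩

end Pool.Agent.Work.MP_69fea5_lc.H3
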