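import Pool.Agent.Work.MP_69fea5_lc.H3.Lib

/-!
The limit of the pasts of a colouring with values in a finite type.
-/

set_option autoImplicit false
set_option linter.unusedSectionVars false

namespace Pool.Agent.Work.MP_69fea5_lc.H3

open Pool.Agent.Work.MP_69fea5_lc.H2

universe u

theorem HLIMK_pf (hLIMK : S_LIMK.{u}) : S_HLIMK.{u} := by
  intro N _ _ _ _ S hS K _ c y hc hy hex
  obtain ⟨B0, hB0, hU0, h0⟩ := hex
  have hD : ∀ v : K, D S fun p : N × N × PUnit.{u + 1} => ∃ x, x + p.1 = p.2.1 ∧ c x = v := by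
    intro v
    refine D.ex (R := fun x (p : N × N × PUnit.{u + 1}) => x + p.1 = p.2.1 ∧ c x = v) ?_
    exact (D.eq (DF.add hS (DF.v0 hS) (DF.v1 hS)) (DF.v2 hS)).and (D.kv hc (DF.v0 hS) v)
  have hfun : ∀ (v w : K) (n b : N), (∃ x, x + n = b ∧ c x = v) → (∃ x, x + n = b ∧ c x = w) →
      v = w := by
    rintro v w n b ⟨x, hx, hv⟩ ⟨x', hx', hw⟩
    have e : x = x' := add_right_cancel (hx.trans hx'.symm)
    subst e
    exact hv.symm.trans hw
  have htot : ∀ n, Ev B0 fun b => ∃ v : K, ∃ x, x + n = b ∧ c x = v := by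
    intro n
    refine ⟨n, fun b _ hb => ?_⟩
    obtain ⟨x, rfl⟩ := exists_add hb
    exact ⟨c x, x, add_comm x n, rfl⟩
  obtain ⟨B, hB, hBB, hU, h, hh, hlim⟩ :=
    hLIMK N S hS K (fun v n b => ∃ x, x + n = b ∧ c x = v) hD hfun B0 hB0 hU0 htot
  have h1 : ∀ m, Ev B fun b => ∀ t ≤ m, ∀ x, x + t = b → c x = h t := by
    intro m
    have hb : Ev B fun b => ∀ t < m + 1, ∀ x, x + t = b → c x = h t := by
      refine Ev.ball hS hB (R := fun t b => ∀ x, x + t = b → c x = h t) ?_ (m + 1) ?_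
      · refine D.all (R := fun x (p : N × N × PUnit.{u + 1}) => x + p.1 = p.2.1 →
          c x = h p.1) ?_
        exact (D.eq (DF.add hS (DF.v0 hS) (DF.v1 hS)) (DF.v2 hS)).imp
          (D.kk hS hc hh (DF.v0 hS) (DF.v1 hS))
      · intro t _
        refine (hlim t).mono fun b _ hb x hx => ?_
        obtain ⟨x', hx', hx'c⟩ := hb
        have e : x = x' := add_right_cancel (hx.trans hx'.symm)
        subst e
        exact hx'c
    exact hb.mono fun b _ hb t ht => hb t ((hS.lt_succ t m).2 ht)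
  refine ⟨B, hB, h, hh, hU, h1, fun m => ?_⟩
  obtain ⟨b, _, _, hb1, x, q, hxm, hW⟩ := Ev.exists hU (Ev.and (h1 m) (Ev.subset hBB (h0 m))) 0
  refine ⟨q, fun t t' htt => ?_⟩
  have ht : t ≤ m := by rw [← htt]; exact le_self_add
  have ht' : t' < m + 1 := (hS.lt_succ t' m).2 (by rw [← htt, add_comm]; exact le_self_add)
  have e : x + t' + t = b := by rw [← hxm, ← htt, add_assoc, add_comm t' t]
  exact (hb1 t ht (x + t') e).symm.trans (hW t' ht')

end Pool.Agent.Work.MP_69fea5_lc.H3
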