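import Pool.Agent.Work.MP_69fea5_lc.H3.Lib

/-!
Block [69fea5 H3], item LIMK: limits of `K`-valued relations along a subset.
-/

set_option autoImplicit false
set_option linter.unusedSectionVars false

namespace Pool.Agent.Work.MP_69fea5_lc.H3

open Pool.Agent.Work.MP_69fea5_lc.H2

universe u

theorem LIMK_pf (hCOH : H2.S_COH.{u}) : S_LIMK.{u} := by
  intro N _ _ _ _ S hS K _ R hR hfun B hB hBu hex
  classical
  have := Fintype.ofFinite K
  have key : ∀ s : Finset K, ∃ B' ∈ S, B' ⊆ B ∧ Unb B' ∧
      ∀ v ∈ s, ∀ n, Ev B' (fun b => R v n b) ∨ Ev B' (fun b => ¬ R v n b) := by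
    intro s
    induction s using Finset.induction_on with
    | empty => exact ⟨B, hB, subset_rfl, hBu, by simp⟩
    | insert v s _ ih =>
      obtain ⟨B', hB', hsub, hu, h⟩ := ih
      obtain ⟨B'', hB'', hsub', hu', h'⟩ := hCOH N S hS (R v) (hR v) B' hB' hu
      refine ⟨B'', hB'', hsub'.trans hsub, hu', fun w hw n => ?_⟩
      rcases Finset.mem_insert.1 hw with rfl | hw
      · exact h' n
      · exact (h w hw n).imp (Ev.subset hsub') (Ev.subset hsub')
  obtain ⟨B', hB', hsub, hu, h⟩ := key Finset.univ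
  have hv : ∀ n, ∃ v, Ev B' fun b => R v n b := by
    intro n
    by_contra hc
    have hc' : ∀ v, ¬ Ev B' fun b => R v n b := fun v hv => hc ⟨v, hv⟩
    have h2 : ∀ v, Ev B' fun b => ¬ R v n b :=
      fun v => (h v (Finset.mem_univ v) n).resolve_left (hc' v)
    have h3 : ∀ s : Finset K, Ev B' fun b => ∀ v ∈ s, ¬ R v n b := by
      intro s
      induction s using Finset.induction_on with
      | empty => exact ⟨0, by simp⟩
      | insert v s _ ih =>
        refine ((h2 v).and ih).mono fun b _ hb w hw => ?_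
        rcases Finset.mem_insert.1 hw with rfl | hw
        · exact hb.1
        · exact hb.2 w hw
    obtain ⟨b, hb, -, hb1, v, hb2⟩ :=
      ((h3 Finset.univ).and ((hex n).subset hsub)).exists hu 0
    exact hb1 v (Finset.mem_univ v) hb2
  choose hh hhh using hv
  refine ⟨B', hB', hsub, hu, hh, fun v => ?_, hhh⟩
  have e : {x | hh x = v} = {x | Ev B' fun b => R v x b} := by
    ext x
    constructor
    · rintro rfl
      exact hhh x
    · intro hx
      obtain ⟨b, hb, -, hb1, hb2⟩ := ((hhh x).and hx).exists hu 0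
      exact hfun _ _ _ _ hb1 hb2
  rw [e]
  exact D.set0 hS (R := fun x => Ev B' fun b => R v x b)
    (D.Ev hS hB' (P := fun b (p : N × PUnit.{u + 1}) => R v p.1 b)
      (D.comp2 (R := fun x y => R v x y) (hR v) (DF.v1 hS) (DF.v0 hS)))

end Pool.Agent.Work.MP_69fea5_lc.H3
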