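import Pool.Agent.Work.MP_69fea5_lc.H3.Lib

/-!
Assembly of the steps: the main theorem for finitely many colours.
-/

set_option autoImplicit false
set_option linter.unusedVariables false

namespace Pool.Agent.Work.MP_69fea5_lc.H3

open Pool.Agent.Work.MP_69fea5_lc.H2

universe u

/-- the limit of the windows exists and is uniformly recurrent -/
theorem I_MAINK.exists_mink (hLIMK : S_LIMK.{u}) (hFORBK : S_FORBK.{u}) (hBKAK : S_BKAK.{u})
    (hBKBK : S_BKBK.{u}) (hBSEQ : S_BSEQ.{u}) (hMINK : S_MINK.{u})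
    (N : Type u) [CommSemiring N] [LinearOrder N] [IsStrictOrderedRing N]
    [CanonicallyOrderedAdd N] (S : Set (Set N)) (hS : Good S) (K : Type) [Finite K]
    (c : N → K) (hc : DK S c) : ∃ y : N → K, DK S y ∧ Mink c y := by
  obtain ⟨A, hA, hF⟩ := hFORBK N S hS K c hc
  have hfree := hBKAK N S hS K c hc A hA hF
  obtain ⟨B, hB, hBU, hBav⟩ := hBSEQ N S hS K c hc A hA hfree
  obtain ⟨B', hB', hsub, hB'U, y, hy, hlim⟩ := hLIMK N S hS K (fun v n b => c (b + n) = v)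
    (fun v => D.kv (α := N × N × PUnit.{u + 1}) hc (DF.add hS (DF.v1 hS) (DF.v0 hS)) v)
    (fun v w n b h1 h2 => h1.symm.trans h2) B hB hBU
    (fun n => ⟨0, fun b _ _ => ⟨c (b + n), rfl⟩⟩)
  refine ⟨y, hy, hMINK N S hS K c y hc hy A hA B' hB' hB'U (fun n => ?_) hlim
    (hBKBK N S hS K c A hF)⟩
  obtain ⟨z, hz⟩ := hBav n
  exact ⟨z, fun b hb hzb => hz b (hsub hb) hzb⟩

theorem MAINK_pf (hCV : H2.S_CV.{u}) (hLIMK : S_LIMK.{u}) (hFORBK : S_FORBK.{u})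
    (hBKAK : S_BKAK.{u}) (hBKBK : S_BKBK.{u}) (hBSEQ : S_BSEQ.{u}) (hMINK : S_MINK.{u})
    (hC1K : S_C1K.{u}) (hSEQK : S_SEQK.{u}) (hHLIMK : S_HLIMK.{u}) (hGLIMK : S_GLIMK.{u})
    (hPARK : S_PARK.{u}) (hPIG1 : S_PIG1.{u}) (hPIG2 : S_PIG2.{u}) (hMTYP : S_MTYP.{u})
    (hRELD : S_RELD.{u}) (hSTEP1 : S_STEP1.{u}) (hSTEP2 : S_STEP2.{u}) (hGRDK : S_GRDK.{u}) :
    S_MAINK.{u} := by
  intro N _ _ _ _ S hS K _ c hc
  obtain ⟨y, hy, hMin⟩ := I_MAINK.exists_mink hLIMK hFORBK hBKAK hBKBK hBSEQ hMINK N S hS K c hc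
  by_cases hI : ∃ p l i, i < l ∧ Stab c y p l i ∧ y (p + i) ∈ AS c y p l i
  · obtain ⟨p, l, i, hil, hst, hmem⟩ := hI
    exact ⟨{y (p + i)}, Or.inl (by simp),
      hC1K N S hS K c y hc hy hMin p l i hil hst hmem⟩
  · have hCase : CaseII c y := fun p l i hil hst hmem => hI ⟨p, l, i, hil, hst, hmem⟩
    have hseq := hSEQK N S hS K c y hc hy hMin
    obtain ⟨B, hB, h, hh, hU, h1, h2⟩ := hHLIMK N S hS K c y hc hy hseq
    obtain ⟨B', G, hG⟩ := hGLIMK N S hS K c y hc hy B hB h hh hU h1 h2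
    have hpar := hPARK N S hS K y hMin.recur
    have hpig1 := hPIG1 N S hS K c y B' G hc hy hG hMin.recur
    have hpig2 := hPIG2 N S hS K c y B' G hc hy hG hpar
    obtain ⟨m₀, a, hmt⟩ := hMTYP N S hS K c y B' G hc hy hG
    have hrel := hRELD N S hS K c y B' G m₀ a hc hy hG
    have hstep1 := hSTEP1 N S hS K c y B' G m₀ a hc hy hG hmt hpig1
    have hstep2 := hSTEP2 N S hS K c y B' G m₀ a hc hy hG hCase hmt hpig2
    have hsol1 : Solk S c a := hGRDK N S hS K c (fun x => Rel c y G m₀ a x) a hc hrel hstep1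
    have hrel2 : D S fun p : N × PUnit.{u + 1} => Rel c y G m₀ a (p.1 + p.1) :=
      D.comp1 (α := N × PUnit.{u + 1}) (R := fun x => Rel c y G m₀ a x) hrel
        (DF.add hS (DF.v0 hS) (DF.v0 hS))
    have hsol2 : Solk S c aᶜ :=
      hGRDK N S hS K c (fun x => Rel c y G m₀ a (x + x)) aᶜ hc hrel2 hstep2
    have hcard := Set.ncard_add_ncard_compl a
    rcases le_or_gt a.ncard (Nat.card K / 2) with hle | hgt
    · exact ⟨a, Or.inr hle, hsol1⟩
    · exact ⟨aᶜ, Or.inr (by omega), hsol2⟩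

end Pool.Agent.Work.MP_69fea5_lc.H3
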