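import Pool.Agent.Work.MP_69fea5_lc.H3.Lib

/-!
Item MIDP: colours of midpoints avoid the minimal type.
-/

set_option autoImplicit false

namespace Pool.Agent.Work.MP_69fea5_lc.H3

open Pool.Agent.Work.MP_69fea5_lc.H2

universe u

theorem MIDP_pf (hSTB : S_STB.{u}) (hSYM : S_SYM.{u}) : S_MIDP.{u} := by
  intro N _ _ _ _ S hS K _ c y G m₀ a hC hM p l i q t hF ha hq0 hq1
  obtain ⟨hil, hst, j₁, j₂, hj, hj1, hj2, hc1, hc2⟩ := hF
  obtain ⟨p₁, l₁, d, ⟨hdl, hW⟩, hS1⟩ := hSTB N S hS K c y q (t + t + l) (t + i)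
  have e0 : ∀ k < l, y (p₁ + d + k) = y (p + k) := by
    intro k hk
    have hk' : k < t + t + l := lt_of_lt_of_le hk le_add_self
    rw [hW k hk', hq0 k hk]
  have e1 : ∀ k < l, y (p₁ + d + (t + t + k)) = y (p + k) := by
    intro k hk
    have hk' : t + t + k < t + t + l := by gcongr
    rw [hW _ hk', ← add_assoc q, hq1 k hk]
  have hFM : FM c y G m₀ p₁ l₁ (t + i + d) := by
    refine ⟨?_, hS1, d + (t + t) + j₁, d + j₂, ?_, ?_, ?_, ?_, ?_⟩
    · calc t + i + d < t + l + d := by gcongr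
        _ = d + (t + l) := by ring
        _ ≤ d + (t + t + l) := by
          gcongr
          exact le_add_self
        _ ≤ l₁ := hdl
    · calc d + (t + t) + j₁ + (d + j₂) + m₀ + m₀
          = (j₁ + j₂ + m₀ + m₀) + (t + t) + (d + d) := by ring
        _ = i + i + (t + t) + (d + d) := by rw [hj]
        _ = t + i + d + (t + i + d) := by ring
    · calc d + (t + t) + j₁ + m₀ + m₀ + 1 = d + (t + t + (j₁ + m₀ + m₀ + 1)) := by ring
        _ ≤ d + (t + t + l) := by gcongr
        _ ≤ l₁ := hdl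
    · calc d + j₂ + m₀ + m₀ + 1 = d + (j₂ + m₀ + m₀ + 1) := by ring
        _ ≤ d + l := by gcongr
        _ ≤ d + (t + t + l) := by gcongr; exact le_add_self
        _ ≤ l₁ := hdl
    · intro s hs
      have hk : j₁ + s < l := by
        calc j₁ + s < j₁ + (m₀ + m₀ + 1) := by gcongr
          _ = j₁ + m₀ + m₀ + 1 := by ring
          _ ≤ l := hj1
      have := e1 (j₁ + s) hk
      rw [show p₁ + (d + (t + t) + j₁) + s = p₁ + d + (t + t + (j₁ + s)) by ring, this,
        ← add_assoc, hc1 s hs]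
    · intro s hs
      have hk : j₂ + s < l := by
        calc j₂ + s < j₂ + (m₀ + m₀ + 1) := by gcongr
          _ = j₂ + m₀ + m₀ + 1 := by ring
          _ ≤ l := hj2
      have := e0 (j₂ + s) hk
      rw [show p₁ + (d + j₂) + s = p₁ + d + (j₂ + s) by ring, this,
        ← add_assoc, hc2 s hs]
  have hE0 : Extk y p₁ l₁ d p l := by
    refine ⟨le_trans ?_ hdl, fun k hk => e0 k hk⟩
    gcongr
    exact le_add_self
  have hE1 : Extk y p₁ l₁ (d + (t + t)) p l := by
    refine ⟨le_trans (le_of_eq (by ring)) hdl, fun k hk => ?_⟩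
    rw [show p₁ + (d + (t + t)) + k = p₁ + d + (t + t + k) by ring, e1 k hk]
  have hsub := hSYM N S hS K c y p₁ l₁ d t p l i hE0 hE1
  rw [ha, show d + t + i = t + i + d by ring] at hsub
  have heq := hM.min p₁ l₁ (t + i + d) hFM hsub
  have hlt : t + i + d < l₁ := hFM.1
  have hno := hC p₁ l₁ (t + i + d) hlt hS1
  rw [heq] at hno
  have hv : y (p₁ + (t + i + d)) = y (q + t + i) := by
    have hk' : t + i < t + t + l := by
      calc t + i < t + l := by gcongr
        _ ≤ t + t + l := by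
          gcongr
          exact le_add_self
    have := hW (t + i) hk'
    rw [show p₁ + (t + i + d) = p₁ + d + (t + i) by ring, this, add_assoc]
  rw [hv] at hno
  exact hno

end Pool.Agent.Work.MP_69fea5_lc.H3
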