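import Pool.Agent.Work.MP_69fea5_lc.H3.Lib

/-!
Item MINK of block [69fea5 H3] (helper60): the limit of the windows is uniformly recurrent.
-/

set_option autoImplicit false
set_option linter.unusedSectionVars false

namespace Pool.Agent.Work.MP_69fea5_lc.H3

open Pool.Agent.Work.MP_69fea5_lc.H2

universe u

theorem MINK_pf : S_MINK.{u} := by
  intro N _ _ _ _ S hS K _ c y hc hy A hA B hB hU hav hyl hbk
  have hlim : ∀ n : N, Ev B fun b => ∀ t < n, c (b + t) = y t := fun n =>
    Ev.ball hS hB (R := fun t b => c (b + t) = y t)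
      (D.kk hS hc hy (DF.add hS (DF.v1 hS) (DF.v0 hS)) (DF.v0 hS)) n (fun t _ => hyl t)
  refine ⟨?_, ?_⟩
  · intro p l z
    obtain ⟨b, _, hzb, hb⟩ := Ev.exists hU (hlim (p + l)) z
    refine ⟨b + p, hzb.trans le_self_add, fun k hk => ?_⟩
    rw [add_assoc]
    exact hb (p + k) (add_lt_add_right hk p)
  · intro p l
    obtain ⟨b0, _, _, hb0⟩ := Ev.exists hU (hlim (p + l)) 0
    have hb0' : ∀ k < l, c (b0 + p + k) = y (p + k) := fun k hk => by
      rw [add_assoc]
      exact hb0 (p + k) (add_lt_add_right hk p)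
    have hi : pr (b0 + p) l ∉ A := by
      intro hiA
      set n1 := max (p + l) (pr (b0 + p) l + 1) with hn1
      obtain ⟨b1, _, _, hb1, hb1'⟩ := Ev.exists hU ((hlim (p + l)).and (hav n1)) 0
      refine hb1' (b0 + p) l p ⟨hiA, ?_⟩ (le_max_left _ _) fun k hk => ?_
      · exact lt_of_lt_of_le (Good.lt_succ_self _) (le_max_right _ _)
      · rw [hb0' k hk, add_assoc]
        exact hb1 (p + k) (add_lt_add_right hk p)
    obtain ⟨n, z, hnz⟩ := hbk (b0 + p) l hi
    refine ⟨n + 1, fun q => ?_⟩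
    set n2 := max (q + n) (pr (b0 + p) l) with hn2
    obtain ⟨b, _, hzb, hb, hb'⟩ := Ev.exists hU ((hlim (q + n)).and (hav n2)) z
    have hAv : Avk c (Below A (pr (b0 + p) l)) (b + q) n := by
      intro p' l' j hp' hj hW
      refine hb' p' l' (q + j) ⟨hp'.1, lt_of_lt_of_le hp'.2 (le_max_right _ _)⟩ ?_ ?_
      · refine le_trans ?_ (le_max_left _ _)
        rw [add_assoc]
        exact add_le_add_right hj q
      · rwa [← add_assoc]
    obtain ⟨j, hj, hW⟩ := hnz (b + q) (hzb.trans le_self_add) hAv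
    refine ⟨j, lt_of_le_of_lt (le_self_add.trans hj) (Good.lt_succ_self n), fun k hk => ?_⟩
    have h1 : q + (j + k) < q + n :=
      add_lt_add_right (lt_of_lt_of_le (add_lt_add_right hk j) hj) q
    have h2 := hb (q + (j + k)) h1
    have h3 := hW k hk
    rw [hb0' k hk] at h3
    rw [← h3, add_assoc q j k, ← h2]
    congr 1
    ring

end Pool.Agent.Work.MP_69fea5_lc.H3
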