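import Pool.Agent.Work.MP_69fea5_lc.H3.Lib

/-!
Minimal recurrent types exist.
-/

set_option autoImplicit false
set_option linter.unusedSectionVars false

namespace Pool.Agent.Work.MP_69fea5_lc.H3

open Pool.Agent.Work.MP_69fea5_lc.H2

universe u

namespace I_MTYP

variable {N : Type u} [CommSemiring N] [LinearOrder N] {K : Type}

/-- the types of the class `F_m` -/
def Ty (c y : N → K) (G : N → N → K) (m : N) : Set (Set K) :=
  {a | ∃ p l i, FM c y G m p l i ∧ AS c y p l i = a}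

variable [IsStrictOrderedRing N] [CanonicallyOrderedAdd N] {S : Set (Set N)}

theorem nonempty [Finite K] (hSTB : S_STB.{u}) (hS : Good S) {c y : N → K} {B : Set N}
    {G : N → N → K} (hG : TwoLimk S c y B G) (m : N) : (Ty c y G m).Nonempty := by
  obtain ⟨q, hq⟩ := hG.win m (m + m + 1)
  obtain ⟨p', l', d, hE, hSt⟩ := hSTB N S hS K c y q (m + m + 1) m
  have h0 := hE.1
  have h1 : d + (m + m + 1) = m + d + 1 + m := by ring
  have h2 : d + (m + m + 1) = d + m + m + 1 := by ring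
  refine ⟨_, p', l', m + d, ⟨?_, hSt, d, d, ?_, ?_, ?_, ?_, ?_⟩, rfl⟩
  · calc m + d < m + d + 1 := Good.lt_succ_self _
      _ ≤ m + d + 1 + m := le_self_add
      _ = d + (m + m + 1) := h1.symm
      _ ≤ l' := h0
  · ring
  · rw [← h2]; exact h0
  · rw [← h2]; exact h0
  · intro t ht
    rw [hE.2 t ht, hq t ht]
  · intro t ht
    rw [hE.2 t ht, hq t ht]

theorem anti {c y : N → K} {B : Set N} {G : N → N → K} (hG : TwoLimk S c y B G) {m m' : N}
    (h : m ≤ m') : Ty c y G m' ⊆ Ty c y G m := by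
  rintro a ⟨p, l, i, hF, ha⟩
  exact ⟨p, l, i, FM.anti hG h hF, ha⟩

end I_MTYP

theorem MTYP_pf (hSTB : S_STB.{u}) : S_MTYP.{u} := by
  intro N _ _ _ _ S hS K _ c y B G hc hy hG
  obtain ⟨_, ⟨m₀, rfl⟩, hm₀⟩ := (wellFounded_lt (α := ℕ)).has_min
    (Set.range fun m : N => (I_MTYP.Ty c y G m).ncard) ⟨_, 0, rfl⟩
  have hmin : ∀ m : N, (I_MTYP.Ty c y G m₀).ncard ≤ (I_MTYP.Ty c y G m).ncard := fun m =>
    not_lt.1 (hm₀ _ ⟨m, rfl⟩)
  have heq : ∀ m : N, m₀ ≤ m → I_MTYP.Ty c y G m = I_MTYP.Ty c y G m₀ := fun m hm =>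
    Set.eq_of_subset_of_ncard_le (I_MTYP.anti hG hm) (hmin m) (Set.toFinite _)
  obtain ⟨a, ha⟩ := (Set.toFinite (I_MTYP.Ty c y G m₀)).exists_minimal
    (I_MTYP.nonempty hSTB hS hG m₀)
  refine ⟨m₀, a, ?_, ?_⟩
  · intro m
    have h1 : a ∈ I_MTYP.Ty c y G (max m m₀) := by
      rw [heq _ (le_max_right _ _)]
      exact ha.1
    exact I_MTYP.anti hG (le_max_left _ _) h1
  · intro p l i hF hsub
    have h1 : AS c y p l i ∈ I_MTYP.Ty c y G m₀ := ⟨p, l, i, hF, rfl⟩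
    exact le_antisymm hsub (ha.2 h1 hsub)

end Pool.Agent.Work.MP_69fea5_lc.H3
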