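import Pool.Agent.Work.MP_69fea5_lc.H3.Lib

/-!
Item PIG1: constant offsets for `b' + b`.
-/

set_option autoImplicit false
set_option linter.unusedSectionVars false

namespace Pool.Agent.Work.MP_69fea5_lc.H3

open Pool.Agent.Work.MP_69fea5_lc.H2

universe u

namespace I_PIG1

variable {N : Type u} [CommSemiring N] [LinearOrder N] {K : Type}
variable {S : Set (Set N)} {α : Type u} [Cx N α]

/-- good offsets -/
def good (y : N → K) (G : N → N → K) (p l b b' u v : N) : Prop :=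
  Occ y G (b' + b) v p l ∧ Occ y G 0 (b' + b + u) p l

/-- for `b` all large `b'` are bad -/
def bad (y : N → K) (G : N → N → K) (B : Set N) (p l u v b : N) : Prop :=
  ∃ z', ∀ b', z' ≤ b' → b' ∈ B → ¬ good y G p l b b' u v

theorem D.good [Finite K] (hS : Good S) {y : N → K} (hy : DK S y) {G : N → N → K}
    (hG : ∀ v, D S fun p : N × N × PUnit.{u + 1} => G p.1 p.2.1 = v)
    (p l : N) {b b' u v : α → N} (hb : DF S b) (hb' : DF S b') (hu : DF S u) (hv : DF S v) :
    D S fun a => good y G p l (b a) (b' a) (u a) (v a) :=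
  (D.Occ hS hy hG (DF.add hS hb' hb) hv (DF.const hS p) (DF.const hS l)).and
    (D.Occ hS hy hG (DF.zero hS) (DF.add hS (DF.add hS hb' hb) hu) (DF.const hS p)
      (DF.const hS l))

theorem D.bad [Finite K] (hS : Good S) {y : N → K} (hy : DK S y) {G : N → N → K}
    (hG : ∀ v, D S fun p : N × N × PUnit.{u + 1} => G p.1 p.2.1 = v) {B : Set N} (hB : B ∈ S)
    (p l : N) {u v b : α → N} (hu : DF S u) (hv : DF S v) (hb : DF S b) :
    D S fun a => bad y G B p l (u a) (v a) (b a) := by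
  refine D.ex (R := fun z' a => ∀ b', z' ≤ b' → b' ∈ B →
    ¬ I_PIG1.good y G p l (b a) b' (u a) (v a)) ?_
  refine D.all (R := fun b' (a : N × α) => a.1 ≤ b' → b' ∈ B →
    ¬ I_PIG1.good y G p l (b a.2) b' (u a.2) (v a.2)) ?_
  refine D.imp (D.le hS (DF.v1 hS) (DF.v0 hS)) (D.imp (D.mem hB (DF.v0 hS)) (D.not ?_))
  exact D.good hS hy hG p l hb.wk.wk (DF.v0 hS) hu.wk.wk hv.wk.wk

variable [IsStrictOrderedRing N] [CanonicallyOrderedAdd N]

theorem exists_good {c y : N → K} {B : Set N} {G : N → N → K} (h : TwoLimk S c y B G)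
    {p l L : N} (hL : ∀ q, ∃ w < L, Wk y (q + w) y p l) (b b' : N) :
    ∃ u < L, ∃ v < L, good y G p l b b' u v := by
  obtain ⟨q, hq⟩ := h.win (b' + b) (b' + b + (b' + b) + L + l)
  obtain ⟨v, hv, h1⟩ := hL q
  obtain ⟨u, hu, h2⟩ := hL (q + (b' + b + (b' + b)))
  refine ⟨u, hu, v, hv, ?_, ?_⟩
  · intro k hk
    have hlt : v + k < b' + b + (b' + b) + L + l := by
      have h0 : (0 : N) ≤ b := zero_le
      have h0' : (0 : N) ≤ b' := zero_le
      have := add_lt_add hv hk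
      grind
    rw [hq (v + k) hlt, ← add_assoc]
    exact h1 k hk
  · intro k hk
    have hlt : b' + b + u + k + (b' + b) < b' + b + (b' + b) + L + l := by
      have := add_lt_add hu hk
      grind
    rw [← h.shift 0 (b' + b + u + k) (b' + b), zero_add, hq _ hlt]
    have := h2 k hk
    rw [← this]
    have e : q + (b' + b + u + k + (b' + b)) = q + (b' + b + (b' + b)) + u + k := by ring
    rw [e]

end I_PIG1

open I_PIG1 in
theorem PIG1_pf : S_PIG1.{u} := by
  intro N _ _ _ _ S hS K _ c y B G hc hy h hrec p l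
  obtain ⟨L, hL⟩ := hrec p l
  by_contra hcon
  push Not at hcon
  have hbad : ∀ u v : N, ∃ z, ∀ b, z ≤ b → (b ∈ B → bad y G B p l u v b) := by
    intro u v
    obtain ⟨z, hz⟩ := hcon u v
    refine ⟨z, fun b hzb hb => ?_⟩
    obtain ⟨z', hz'⟩ := hz b hb hzb
    exact ⟨z', fun b' hzb' hb' hg => hz' b' hb' hzb' hg.1 hg.2⟩
  have step : ∀ u : N, ∃ z, ∀ b, z ≤ b → ∀ v < L, (b ∈ B → bad y G B p l u v b) := by
    intro u
    obtain ⟨z, hz⟩ := D.collect hS (R := fun v b => b ∈ B → bad y G B p l u v b)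
      ((D.mem h.mem (DF.v1 hS)).imp
        (D.bad hS hy h.dfn h.mem p l (DF.const hS u) (DF.v0 hS) (DF.v1 hS)))
      L (fun v _ => hbad u v)
    exact ⟨z, fun b hb v hv => hz v hv b hb⟩
  obtain ⟨z, hz⟩ := D.collect hS
    (R := fun u b => ∀ v < L, (b ∈ B → bad y G B p l u v b)) (by
      refine D.ball hS (R := fun v (a : N × N × PUnit.{u + 1}) =>
        (a.2.1 ∈ B → bad y G B p l a.1 v a.2.1)) ?_ (DF.const hS L)
      exact (D.mem h.mem (DF.v2 hS)).imp
        (D.bad hS hy h.dfn h.mem p l (DF.v1 hS) (DF.v0 hS) (DF.v2 hS)))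
      L (fun u _ => step u)
  obtain ⟨b, hb, hzb⟩ := h.unb z
  have hb2 : ∀ u < L, ∀ v < L, bad y G B p l u v b := fun u hu v hv => hz u hu b hzb v hv hb
  have step' : ∀ u < L, ∃ z', ∀ b', z' ≤ b' → ∀ v < L, (b' ∈ B → ¬ good y G p l b b' u v) := by
    intro u hu
    obtain ⟨z', hz'⟩ := D.collect hS (R := fun v b' => b' ∈ B → ¬ good y G p l b b' u v)
      ((D.mem h.mem (DF.v1 hS)).imp (D.not
        (D.good hS hy h.dfn p l (DF.const hS b) (DF.v1 hS) (DF.const hS u) (DF.v0 hS))))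
      L (fun v hv => hb2 u hu v hv)
    exact ⟨z', fun b' hb' v hv => hz' v hv b' hb'⟩
  obtain ⟨z', hz'⟩ := D.collect hS
    (R := fun u b' => ∀ v < L, (b' ∈ B → ¬ good y G p l b b' u v)) (by
      refine D.ball hS (R := fun v (a : N × N × PUnit.{u + 1}) =>
        (a.2.1 ∈ B → ¬ good y G p l b a.2.1 a.1 v)) ?_ (DF.const hS L)
      exact (D.mem h.mem (DF.v2 hS)).imp (D.not
        (D.good hS hy h.dfn p l (DF.const hS b) (DF.v2 hS) (DF.v1 hS) (DF.v0 hS))))
      L (fun u hu => step' u hu)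
  obtain ⟨b', hb', hzb'⟩ := h.unb z'
  obtain ⟨u, hu, v, hv, hg⟩ := exists_good h hL b b'
  exact hz' u hu b' hzb' v hv hb' hg

end Pool.Agent.Work.MP_69fea5_lc.H3
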