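import Pool.Agent.Work.MP_69fea5_lc.H3.Lib

/-!
Item PIG2: constant offsets of the right parity for `b + b`.
-/

set_option autoImplicit false
set_option linter.unusedSectionVars false

namespace Pool.Agent.Work.MP_69fea5_lc.H3

open Pool.Agent.Work.MP_69fea5_lc.H2

universe u

namespace I_PIG2

variable {N : Type u} [CommSemiring N] [LinearOrder N] {K : Type}
variable {S : Set (Set N)} {α : Type u} [Cx N α]

/-- good offsets -/
def good (y : N → K) (G : N → N → K) (p l b u v : N) : Prop :=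
  Occ y G (b + b) v p l ∧ Occ y G 0 (b + b + u) p l

theorem D.good [Finite K] (hS : Good S) {y : N → K} (hy : DK S y) {G : N → N → K}
    (hG : ∀ v, D S fun p : N × N × PUnit.{u + 1} => G p.1 p.2.1 = v)
    (p l : N) {b u v : α → N} (hb : DF S b) (hu : DF S u) (hv : DF S v) :
    D S fun a => good y G p l (b a) (u a) (v a) :=
  (D.Occ hS hy hG (DF.add hS hb hb) hv (DF.const hS p) (DF.const hS l)).and
    (D.Occ hS hy hG (DF.zero hS) (DF.add hS (DF.add hS hb hb) hu) (DF.const hS p)
      (DF.const hS l))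

theorem D.even (hS : Good S) {u v : α → N} (hu : DF S u) (hv : DF S v) :
    D S fun a => ∃ n, u a + v a = n + n :=
  D.ex (R := fun n a => u a + v a = n + n)
    (D.eq (DF.add hS hu.wk hv.wk) (DF.add hS (DF.v0 hS) (DF.v0 hS)))

variable [IsStrictOrderedRing N] [CanonicallyOrderedAdd N]

theorem exists_good {c y : N → K} {B : Set N} {G : N → N → K} (h : TwoLimk S c y B G)
    {p l L : N} (hL : ∀ q e, ∃ u < L, ∃ v < L, Wk y (q + v) y p l ∧
      Wk y (q + (e + e) + u) y p l ∧ ∃ n, u + v = n + n) (b : N) :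
    ∃ u < L, ∃ v < L, (∃ n, u + v = n + n) ∧ good y G p l b u v := by
  obtain ⟨q, hq⟩ := h.win (b + b) (b + b + (b + b) + L + l)
  obtain ⟨u, hu, v, hv, h1, h2, h3⟩ := hL q (b + b)
  refine ⟨u, hu, v, hv, h3, ?_, ?_⟩
  · intro k hk
    have hlt : v + k < b + b + (b + b) + L + l := by
      have h0 : (0 : N) ≤ b := zero_le
      have := add_lt_add hv hk
      grind
    rw [hq (v + k) hlt, ← add_assoc]
    exact h1 k hk
  · intro k hk
    have hlt : b + b + u + k + (b + b) < b + b + (b + b) + L + l := by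
      have := add_lt_add hu hk
      grind
    rw [← h.shift 0 (b + b + u + k) (b + b), zero_add, hq _ hlt]
    have := h2 k hk
    rw [← this]
    have e : q + (b + b + u + k + (b + b)) = q + (b + b + (b + b)) + u + k := by ring
    rw [e]

end I_PIG2

open I_PIG2 in
theorem PIG2_pf : S_PIG2.{u} := by
  intro N _ _ _ _ S hS K _ c y B G hc hy h hpar p l
  obtain ⟨L, hL⟩ := hpar p l
  by_contra hcon
  push Not at hcon
  have hbad : ∀ u v : N, ∃ z, ∀ b, z ≤ b → (b ∈ B → (∃ n, u + v = n + n) →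
      ¬ good y G p l b u v) := by
    intro u v
    by_cases he : ∃ n, u + v = n + n
    · obtain ⟨n, hn⟩ := he
      obtain ⟨z, hz⟩ := hcon u v n hn
      exact ⟨z, fun b hzb hb _ hg => hz b hb hzb hg.1 hg.2⟩
    · exact ⟨0, fun b _ _ h' => absurd h' he⟩
  have step : ∀ u : N, ∃ z, ∀ b, z ≤ b → ∀ v < L, (b ∈ B → (∃ n, u + v = n + n) →
      ¬ good y G p l b u v) := by
    intro u
    obtain ⟨z, hz⟩ := D.collect hS (R := fun v b => b ∈ B → (∃ n, u + v = n + n) →
      ¬ good y G p l b u v) (by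
        refine D.imp (D.mem h.mem (DF.v1 hS)) (D.imp ?_ (D.not ?_))
        · exact D.even hS (DF.const hS u) (DF.v0 hS)
        · exact D.good hS hy h.dfn p l (DF.v1 hS) (DF.const hS u) (DF.v0 hS))
      L (fun v _ => hbad u v)
    exact ⟨z, fun b hb v hv => hz v hv b hb⟩
  obtain ⟨z, hz⟩ := D.collect hS (R := fun u b => ∀ v < L, (b ∈ B → (∃ n, u + v = n + n) →
      ¬ good y G p l b u v)) (by
        refine D.ball hS (R := fun v (a : N × N × PUnit.{u + 1}) => (a.2.1 ∈ B →
          (∃ n, a.1 + v = n + n) → ¬ good y G p l a.2.1 a.1 v)) ?_ (DF.const hS L)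
        refine D.imp (D.mem h.mem (DF.v2 hS)) (D.imp ?_ (D.not ?_))
        · exact D.even hS (DF.v1 hS) (DF.v0 hS)
        · exact D.good hS hy h.dfn p l (DF.v2 hS) (DF.v1 hS) (DF.v0 hS))
      L (fun u _ => step u)
  obtain ⟨b, hb, hzb⟩ := h.unb z
  obtain ⟨u, hu, v, hv, he, hg⟩ := exists_good h hL b
  exact hz u hu b hzb v hv hb he hg

end Pool.Agent.Work.MP_69fea5_lc.H3
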