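import Pool.Agent.Work.MP_69fea5_lc.H3.Lib

/-!
Item SEQK: positions at which the past of `c` is in the minimal system.
-/

set_option autoImplicit false

namespace Pool.Agent.Work.MP_69fea5_lc.H3

open Pool.Agent.Work.MP_69fea5_lc.H2

universe u

namespace I_SEQK

section

variable {N : Type u} [CommSemiring N] [LinearOrder N] {K : Type}

/-- the window of length `k + 1` ending at `b` is the initial window of `y` -/
def P (c y : N → K) (k b : N) : Prop := k ≤ b ∧ ∃ x, x + k = b ∧ Wk c x y 0 (k + 1)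

/-- `b` is least with `P k b` -/
def L (c y : N → K) (k b : N) : Prop := P c y k b ∧ ∀ b' < b, ¬ P c y k b'

variable {S : Set (Set N)}

theorem dP [Finite K] (hS : Good S) {c y : N → K} (hc : DK S c) (hy : DK S y) :
    D S fun p : N × N × PUnit.{u + 1} => P c y p.1 p.2.1 := by
  refine (D.le hS (DF.v0 hS) (DF.v1 hS)).and ?_
  refine D.ex (R := fun x (p : N × N × PUnit.{u + 1}) => x + p.1 = p.2.1 ∧
    H3.Wk c x y 0 (p.1 + 1)) ?_
  exact (D.eq (DF.add hS (DF.v0 hS) (DF.v1 hS)) (DF.v2 hS)).and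
    (D.Wk hS hc hy (DF.v0 hS) (DF.zero hS) (DF.add hS (DF.v1 hS) (DF.one hS)))

theorem dL [Finite K] (hS : Good S) {c y : N → K} (hc : DK S c) (hy : DK S y) :
    D S fun p : N × N × PUnit.{u + 1} => L c y p.1 p.2.1 := by
  refine (dP hS hc hy).and ?_
  exact D.ball hS (R := fun b' (p : N × N × PUnit.{u + 1}) => ¬ P c y p.1 b')
    (D.not (D.comp2 (dP hS hc hy) (DF.v1 hS) (DF.v0 hS))) (DF.v1 hS)

end

end I_SEQK

open I_SEQK in
theorem SEQK_pf : S_SEQK.{u} := by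
  intro N _ _ _ _ S hS K _ c y hc hy hM
  refine ⟨{b | ∃ k, L c y k b}, ?_, ?_, ?_⟩
  · exact D.set0 hS (R := fun b => ∃ k, L c y k b)
      (D.ex (R := fun k (p : N × PUnit.{u + 1}) => L c y k p.1) (dL hS hc hy))
  · intro m
    obtain ⟨x, -, hx⟩ := hM.far 0 (m + 1) m
    obtain ⟨b, hb, hb'⟩ := D.least hS (R := fun b => P c y m b)
      (D.comp2 (dP hS hc hy) (DF.const hS m) (DF.v0 hS))
      ⟨x + m, le_add_self, x, rfl, hx⟩
    exact ⟨b, ⟨m, hb, hb'⟩, hb.1⟩
  · intro m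
    obtain ⟨z, hz⟩ := D.collect hS (R := fun k b => ¬ L c y k b) (dL hS hc hy).not m (by
      intro k _
      by_cases h : ∃ b0, L c y k b0
      · obtain ⟨b0, h0⟩ := h
        refine ⟨b0 + 1, fun b hb hL => ?_⟩
        exact hL.2 b0 (lt_of_lt_of_le (Good.lt_succ_self b0) hb) h0.1
      · exact ⟨0, fun b _ hL => h ⟨b, hL⟩⟩)
    refine ⟨z, ?_⟩
    rintro b ⟨k, hk⟩ hzb
    have hmk : m ≤ k := by
      by_contra hc
      exact hz k (not_le.1 hc) b hzb hk
    obtain ⟨e, rfl⟩ := exists_add hmk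
    obtain ⟨-, x, hx, hW⟩ := hk.1
    refine ⟨x + e, 0 + e, ?_, ?_⟩
    · rw [← hx]; ring
    · exact hW.sub (le_of_eq (by ring))

end Pool.Agent.Work.MP_69fea5_lc.H3
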