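import Pool.Agent.Work.MP_69fea5_lc.H3.Lib

/-!
STEP1: the step of the greedy construction with colours in the type.
-/

set_option autoImplicit false
set_option linter.unusedSectionVars false

namespace Pool.Agent.Work.MP_69fea5_lc.H3

open Pool.Agent.Work.MP_69fea5_lc.H2

universe u

namespace I_STEP1

variable {N : Type u} [CommSemiring N] [LinearOrder N] [IsStrictOrderedRing N]
  [CanonicallyOrderedAdd N] {K : Type}

theorem relB_mono {c y : N → K} {G : N → N → K} {m₀ : N} {a : Set K} {w D D' : N}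
    (h : RelB c y G m₀ a w D) (hD : D ≤ D') : RelB c y G m₀ a w D' := by
  obtain ⟨p, l, i, m, f₁, f₂, h1, h2, h3, h4, h5, h6, h7, h8, h9, h10⟩ := h
  exact ⟨p, l, i, m, f₁, f₂, h1, h2, h3, h4, h5, h6.trans hD, h7.trans hD, h8.trans hD,
    h9.trans hD, fun s hs => h10 s (hD.trans hs)⟩

theorem shift0 {S : Set (Set N)} {c y : N → K} {B : Set N} {G : N → N → K}
    (hG : TwoLimk S c y B G) (E t : N) : G E (E + t) = G 0 t := by
  have := hG.shift 0 t E
  rwa [zero_add, add_comm t E] at this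

/-- the window of `G` inside the window of `y` at `p` -/
theorem inner {S : Set (Set N)} {c y : N → K} {B : Set N} {G : N → N → K}
    (hG : TwoLimk S c y B G) {d : N → K} {s p l j D m' dl f p' l' : N}
    (hs : Wk d s y p l) (hj : j + D + D + 1 ≤ l)
    (hw : ∀ t < D + D + 1, y (p + j + t) = G D t) (hD : D = m' + dl) (hf : f + l' ≤ D)
    (ho : Occ y G m' f p' l') : Wk d (s + (j + dl + f)) y p' l' := by
  intro k hk
  have h0 : f + k < D := lt_of_lt_of_le (by grind) hf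
  have hdl : dl ≤ D := by rw [hD]; exact le_add_self
  have h1 : dl + f + k < D + D + 1 := by
    rw [add_assoc dl f k]
    exact (add_lt_add_of_le_of_lt hdl h0).trans (Good.lt_succ_self _)
  have h2 : j + (dl + f + k) < l := by grind
  have h3 := hs (j + (dl + f + k)) h2
  have h4 := hw (dl + f + k) h1
  have h5 : G D (dl + f + k) = G m' (f + k) := by
    have := hG.shift m' (f + k) dl
    rw [← hD] at this
    rw [← this]
    congr 1
    ring
  have e1 : s + (j + dl + f) + k = s + (j + (dl + f + k)) := by ring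
  have e2 : p + (j + (dl + f + k)) = p + j + (dl + f + k) := by ring
  rw [e1, h3, e2, h4, h5]
  exact ho k hk

end I_STEP1

open I_STEP1 in
theorem STEP1_pf (hTHR : S_THR.{u}) (hDATA : S_DATA.{u}) : S_STEP1.{u} := by
  intro N _ _ _ _ S hS K _ c y B G m₀ a hc hy hG hM hP m
  obtain ⟨D, hD⟩ := hDATA N S hS K c y B G m₀ a hc hy hG m
  obtain ⟨D0, hDD, hmD⟩ : ∃ D0, D ≤ D0 ∧ m₀ ≤ D0 := ⟨max D m₀, le_max_left _ _, le_max_right _ _⟩
  have hD0 : ∀ w < m, Rel c y G m₀ a w → RelB c y G m₀ a w D0 :=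
    fun w hw hr => relB_mono (hD w hw hr) hDD
  obtain ⟨p, l, i, hF, hA⟩ := hM.ex D0
  have hF0 : FM c y G m₀ p l i := FM.anti hG hmD hF
  obtain ⟨hil, hst, j₁, j₂, hj, hj1, hj2, hw1, hw2⟩ := hF
  obtain ⟨nP, hnP⟩ := hTHR N S hS K c y p l i
  rw [hA] at hnP
  obtain ⟨u, v, hPIG⟩ := hP p l
  obtain ⟨e, heB, -, he⟩ := hPIG 0
  obtain ⟨e', he'B, -, hoe1, hoe2⟩ := he 0
  obtain ⟨E, hE⟩ : ∃ E, E = e' + e := ⟨_, rfl⟩
  rw [← hE] at hoe1 hoe2
  obtain ⟨z0, hz0⟩ : ∃ z0, z0 = u + v + i + i := ⟨_, rfl⟩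
  -- the first pair
  obtain ⟨Z1, hZ1⟩ := hG.lim (E + u + l)
  obtain ⟨b1, hb1B, hb1, hg1⟩ := hPIG Z1
  obtain ⟨Z2, hZ2⟩ := hZ1 b1 hb1B hb1
  obtain ⟨b2, hb2B, hb2, hg2⟩ := hPIG (max Z2 (b1 + (D0 + nP + m)))
  have hb21 : b1 + (D0 + nP + m) ≤ b2 := (le_max_right _ _).trans hb2
  obtain ⟨bt', hbt'⟩ := exists_add hb21
  obtain ⟨bt, hbt⟩ : ∃ bt, bt = D0 + nP + m + bt' := ⟨_, rfl⟩
  have hb12 : bt + b1 = b2 := by rw [hbt', hbt]; ring
  have hc1 : ∀ t < E + u + l, c (bt + t) = G 0 t := fun t ht =>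
    hZ2 b2 hb2B ((le_max_left _ _).trans hb2) t ht bt hb12
  -- the second pair
  obtain ⟨Z3, hZ3⟩ := hG.lim (z0 + bt + m + 1)
  obtain ⟨b3, hb3B, hb3, ho31, ho32⟩ := hg1 Z3
  obtain ⟨Z4, hZ4⟩ := hZ3 b3 hb3B hb3
  obtain ⟨b4, hb4B, hb4, ho41, ho42⟩ := hg2 (max Z4 b3)
  obtain ⟨g, hg⟩ := exists_add ((le_max_right _ _).trans hb4)
  have hc2 : ∀ t < z0 + bt + m + 1, c (g + t) = G 0 t := fun t ht =>
    hZ4 b4 hb4B ((le_max_left _ _).trans hb4) t ht g (by rw [hg]; ring)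
  -- the window of the limit point
  obtain ⟨q0, hq0⟩ := hG.win E (E + (z0 + bt + m + 1) + (v + l))
  have hwE : ∀ t < z0 + bt + m + 1, G 0 t = y (q0 + (E + t)) := fun t ht => by
    rw [← hq0 (E + t) (by have := zero_le (a := v + l); grind), shift0 hG]
  have hWs : Wk c (bt + (E + u)) y p l := fun k hk => by
    have h1 := hc1 (E + u + k) (by grind)
    have h2 := hoe2 k hk
    rw [← h2, ← h1]
    congr 1
    ring
  have hWq : Wk y (q0 + v) y p l := fun k hk => by
    have h1 := hq0 (v + k) (by have := zero_le (a := E + (z0 + bt + m + 1)); grind)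
    have h2 := hoe1 k hk
    rw [← h2, h1]
    congr 1
    ring
  refine ⟨z0 + bt + g, ?_, ?_, ?_, ?_⟩
  · have h1 := zero_le (a := z0)
    have h2 := zero_le (a := g)
    have h3 := zero_le (a := D0 + nP + bt')
    grind
  · refine ⟨p, l, i, b3 + b1, b4 + b2 + u, v, hF0, hA, ho42, ho31, ?_⟩
    rw [hg, ← hb12, hz0]
    ring
  · have h1 := hnP (bt + (E + u)) (by
      have h2 := zero_le (a := D0 + m + bt' + (E + u))
      grind) hWs (q0 + v) hWq
    have h3 := hc2 (z0 + bt) (by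
      have := zero_le (a := m)
      have h4 := Good.lt_succ_self (z0 + bt)
      grind)
    have h4 := hwE (z0 + bt) (by
      have := zero_le (a := m)
      have h4 := Good.lt_succ_self (z0 + bt)
      grind)
    have e1 : z0 + bt + g = g + (z0 + bt) := by ring
    have e2 : q0 + v + i + (bt + (E + u) + i) = q0 + (E + (z0 + bt)) := by rw [hz0]; ring
    rw [e1, h3, h4, ← e2]
    exact h1
  · intro x' hx' hr
    obtain ⟨p', l', i', m', f₁', f₂', -, -, ho1, ho2, hsum, hm', hf1, hf2, hi', hthr⟩ :=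
      hD0 x' hx' hr
    obtain ⟨dl, hdl⟩ := exists_add hm'
    have hs' : Wk c (bt + (E + u) + (j₁ + D0 + f₁')) y p' l' :=
      inner hG hWs hj1 hw1 (zero_add D0).symm hf1 ho1
    have hq' : Wk y (q0 + v + (j₂ + dl + f₂')) y p' l' :=
      inner hG hWq hj2 hw2 hdl hf2 ho2
    have h1 := hthr _ (by
      have h2 := zero_le (a := nP + m + bt' + (E + u) + (j₁ + D0 + f₁'))
      grind) hs' _ hq'
    have hlt : z0 + bt + x' < z0 + bt + m + 1 := by
      have h4 := Good.lt_succ_self (z0 + bt + m)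
      grind
    have h3 := hc2 (z0 + bt + x') hlt
    have h4 := hwE (z0 + bt + x') hlt
    have e1 : z0 + bt + g + x' = g + (z0 + bt + x') := by ring
    have e2 : q0 + v + (j₂ + dl + f₂') + i' + (bt + (E + u) + (j₁ + D0 + f₁') + i') =
        q0 + (E + (z0 + bt + x')) := by
      calc q0 + v + (j₂ + dl + f₂') + i' + (bt + (E + u) + (j₁ + D0 + f₁') + i')
          = q0 + E + bt + (u + v) + (j₁ + j₂ + D0 + dl) + (f₁' + f₂' + i' + i') := by ring
        _ = q0 + E + bt + (u + v) + (j₁ + j₂ + D0 + (m' + dl)) + x' := by rw [hsum]; ring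
        _ = q0 + E + bt + (u + v) + (i + i) + x' := by rw [← hdl, hj]
        _ = q0 + (E + (z0 + bt + x')) := by rw [hz0]; ring
    rw [e1, h3, h4, ← e2]
    exact h1

end Pool.Agent.Work.MP_69fea5_lc.H3
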