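import Pool.Agent.Work.MP_69fea5_lc.H3.Lib

/-!
STEP2: the step of the greedy construction with colours outside the type.
-/

set_option autoImplicit false
set_option linter.unusedSectionVars false

namespace Pool.Agent.Work.MP_69fea5_lc.H3

open Pool.Agent.Work.MP_69fea5_lc.H2

universe u

namespace I_STEP2

variable {N : Type u} [CommSemiring N] [LinearOrder N] [IsStrictOrderedRing N]
  [CanonicallyOrderedAdd N] {K : Type} {S : Set (Set N)}

/-- an occurrence in the limit point seen in a window of `y` -/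
theorem occ_win {c y : N → K} {B : Set N} {G : N → N → K} (hG : TwoLimk S c y B G)
    {M r f p l q L : N} (hq : ∀ t < L, G (M + r) t = y (q + t)) (hO : Occ y G M f p l)
    (hL : f + r + l ≤ L) : Wk y (q + (f + r)) y p l := by
  intro k hk
  have h1 : f + r + k < L := lt_of_lt_of_le (by grind) hL
  have e : q + (f + r) + k = q + (f + r + k) := by ring
  rw [e, ← hq _ h1]
  have e2 : f + r + k = f + k + r := by ring
  rw [e2, hG.shift]
  exact hO k hk

/-- an occurrence near `0` in the limit point seen in a window which contains the central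
window -/
theorem inner {c y : N → K} {B : Set N} {G : N → N → K} (hG : TwoLimk S c y B G)
    {m dl j p f p' l' E : N} (h5 : ∀ t < E, y (p + j + t) = G (m + dl) t)
    (hO : Occ y G m f p' l') (hL : f + dl + l' ≤ E) : Wk y (p + (j + (f + dl))) y p' l' := by
  intro k hk
  have h1 : f + dl + k < E := lt_of_lt_of_le (by grind) hL
  have e : p + (j + (f + dl)) + k = p + j + (f + dl + k) := by ring
  rw [e, h5 _ h1]
  have e2 : f + dl + k = f + k + dl := by ring
  rw [e2, hG.shift]
  exact hO k hk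

theorem relB_mono {c y : N → K} {G : N → N → K} {m₀ w D D' : N} {a : Set K} (h : D ≤ D')
    (hR : RelB c y G m₀ a w D) : RelB c y G m₀ a w D' := by
  obtain ⟨p, l, i, m, f₁, f₂, h1, h2, h3, h4, h5, h6, h7, h8, h9, h10⟩ := hR
  exact ⟨p, l, i, m, f₁, f₂, h1, h2, h3, h4, h5, h6.trans h, h7.trans h, h8.trans h,
    h9.trans h, fun s hs => h10 s (h.trans hs)⟩

end I_STEP2

open I_STEP2 in
theorem STEP2_pf (hDATA : S_DATA.{u}) (hMIDP : S_MIDP.{u}) : S_STEP2.{u} := by
  intro N _ _ _ _ S hS K _ c y B G m₀ a hc hy hG hII hmt hpig m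
  obtain ⟨D, hD⟩ := hDATA N S hS K c y B G m₀ a hc hy hG (m + m)
  -- the bound
  obtain ⟨D0, hD0, hm0⟩ : ∃ D0, D ≤ D0 ∧ m₀ ≤ D0 := ⟨max D m₀, le_max_left _ _, le_max_right _ _⟩
  obtain ⟨p, l, i, hFM, hAS⟩ := hmt.ex D0
  have hFM0 : FM c y G m₀ p l i := FM.anti hG hm0 hFM
  obtain ⟨hil, hst, j₁, j₂, hj, hj1, hj2, hw1, hw2⟩ := hFM
  obtain ⟨u, v, n, huv, hJ⟩ := hpig p l
  obtain ⟨z1, hz1⟩ := hG.lim (n + i + m + 1)
  obtain ⟨b, hbB, hzb, hob1, hob2⟩ := hJ (max z1 (n + v + l + D0 + D0 + D0))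
  have hzb1 : z1 ≤ b := (le_max_left _ _).trans hzb
  have hbig : n + v + l + D0 + D0 + D0 ≤ b := (le_max_right _ _).trans hzb
  obtain ⟨z2, hz2⟩ := hz1 b hbB hzb1
  obtain ⟨b', hbB', hzb', hob1', hob2'⟩ := hJ (max z2 (b + m))
  have hzb2 : z2 ≤ b' := (le_max_left _ _).trans hzb'
  have hbm : b + m ≤ b' := (le_max_right _ _).trans hzb'
  have hlim := hz2 b' hbB' hzb2
  obtain ⟨bt, rfl⟩ := exists_add (a := b) (b := b') (le_trans le_self_add hbm)
  have hmbt : m ≤ bt := le_of_add_le_add_left hbm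
  -- the values of `c`
  have nb := zero_le (a := b)
  have nu := zero_le (a := u)
  have nv := zero_le (a := v)
  have nl := zero_le (a := l)
  have nn := zero_le (a := n)
  have nm := zero_le (a := m)
  have ni := zero_le (a := i)
  have nD := zero_le (a := D0)
  have n1 := zero_le (a := (1 : N))
  have hcx : ∀ x' ≤ m, c (bt + (n + i) + x') = G 0 (n + i + x') := by
    intro x' hx'
    have h1 : n + i + x' < n + i + m + 1 :=
      lt_of_le_of_lt (add_le_add_right hx' _) (Good.lt_succ_self _)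
    have := hlim (n + i + x') h1 bt (add_comm _ _)
    rw [← this]
    congr 1
    ring
  -- the window
  obtain ⟨q0, hq0⟩ := hG.win (b + b) (b + b + (b + b) + u + v + l + n + m + i + 1)
  have hL1 : v + 0 + l ≤ b + b + (b + b) + u + v + l + n + m + i + 1 := by
    clear hq0 hJ hob1 hob2 hob1' hob2' hlim hz1 hz2 hw1 hw2 hpig hD hbB hbB' hcx hst hFM0 hG
    grind
  have hL2 : b + b + u + (b + b) + l ≤ b + b + (b + b) + u + v + l + n + m + i + 1 := by
    clear hq0 hJ hob1 hob2 hob1' hob2' hlim hz1 hz2 hw1 hw2 hpig hD hbB hbB' hcx hst hFM0 hG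
    grind
  have hocc1 : Wk y (q0 + v) y p l := by
    have := occ_win hG (M := b + b) (r := 0) (f := v) (p := p) (l := l) (q := q0)
      (L := b + b + (b + b) + u + v + l + n + m + i + 1) (by simpa using hq0) hob1 hL1
    simpa using this
  have hocc2 : Wk y (q0 + (b + b + u + (b + b))) y p l :=
    occ_win hG (M := 0) (r := b + b) (f := b + b + u) (p := p) (l := l) (q := q0)
      (L := b + b + (b + b) + u + v + l + n + m + i + 1) (by simpa using hq0) hob2 hL2
  have hval : ∀ x' ≤ m, y (q0 + (b + b + (n + i + x'))) = c (bt + (n + i) + x') := by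
    intro x' hx'
    have h1 : n + i + x' + (b + b) < b + b + (b + b) + u + v + l + n + m + i + 1 := by
      clear hq0 hJ hob1 hob2 hob1' hob2' hlim hz1 hz2 hw1 hw2 hpig hD hbB hbB' hcx hst hFM0 hG
      grind
    have h2 := hG.shift 0 (n + i + x') (b + b)
    rw [zero_add] at h2
    rw [hcx x' hx', ← h2, hq0 _ h1]
    congr 1
    ring
  refine ⟨bt + (n + i), hmbt.trans le_self_add, ?_, ?_, ?_⟩
  · refine ⟨p, l, i, b + b, b + bt + (b + bt) + u, v, hFM0, hAS, hob2', hob1, ?_⟩
    have e : b + bt + (b + bt) + u + v + i + i = b + bt + (b + bt) + (u + v) + i + i := by ring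
    rw [e, huv]
    ring
  · -- the colour of `x`
    obtain ⟨t, ht⟩ : ∃ t, b + b + n = v + t := exists_add (by
      clear hq0 hJ hob1 hob2 hob1' hob2' hlim hz1 hz2 hw1 hw2 hpig hD hbB hbB' hcx hst hFM0 hG
      grind)
    have h1 : Wk y (q0 + v + (t + t)) y p l := by
      have e : q0 + v + (t + t) = q0 + (b + b + u + (b + b)) := by
        clear hq0 hJ hob1 hob2 hob1' hob2' hlim hz1 hz2 hw1 hw2 hpig hD hbB hbB' hcx hst hFM0 hG
        grind
      rw [e]
      exact hocc2
    have h2 := hMIDP N S hS K c y G m₀ a hII hmt p l i (q0 + v) t hFM0 hAS hocc1 h1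
    have e : q0 + v + t + i = q0 + (b + b + (n + i + 0)) := by
      clear hq0 hJ hob1 hob2 hob1' hob2' hlim hz1 hz2 hw1 hw2 hpig hD hbB hbB' hcx hst hFM0 hG
      grind
    rw [e, hval 0 nm, add_zero] at h2
    exact h2
  · -- the colours of the sums
    intro x' hx' hR
    obtain ⟨p', l', i', m', f₁, f₂, h1, h2, h3, h4, h5, h6, h7, h8, h9, -⟩ :=
      relB_mono hD0 (hD (x' + x') (add_lt_add hx' hx') hR)
    obtain ⟨dl, rfl⟩ := exists_add h6
    have nx := zero_le (a := x')
    have nm' := zero_le (a := m')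
    have ndl := zero_le (a := dl)
    have nf1 := zero_le (a := f₁)
    have nf2 := zero_le (a := f₂)
    have ni' := zero_le (a := i')
    have nl' := zero_le (a := l')
    have nj1 := zero_le (a := j₁)
    have nj2 := zero_le (a := j₂)
    have hO1 : Wk y (q0 + v + (j₂ + (f₂ + dl))) y p' l' := by
      refine (hocc1.sub ?_).trans (inner hG hw2 h4 ?_)
      · clear hq0 hJ hob1 hob2 hob1' hob2' hlim hz1 hz2 hw1 hw2 hpig hD hbB hbB' hcx hst hFM0 hG
        grind
      · clear hq0 hJ hob1 hob2 hob1' hob2' hlim hz1 hz2 hw1 hw2 hpig hD hbB hbB' hcx hst hFM0 hG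
        grind
    have hO2 : Wk y (q0 + (b + b + u + (b + b)) + (j₁ + (f₁ + (m' + dl)))) y p' l' := by
      refine (hocc2.sub ?_).trans (inner hG (m := 0) (dl := m' + dl) (by simpa using hw1) h3 ?_)
      · clear hq0 hJ hob1 hob2 hob1' hob2' hlim hz1 hz2 hw1 hw2 hpig hD hbB hbB' hcx hst hFM0 hG
        grind
      · clear hq0 hJ hob1 hob2 hob1' hob2' hlim hz1 hz2 hw1 hw2 hpig hD hbB hbB' hcx hst hFM0 hG
        grind
    obtain ⟨t, ht⟩ : ∃ t, b + b + (n + i + x') = v + (j₂ + (f₂ + dl)) + i' + t := exists_add (by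
      clear hq0 hJ hob1 hob2 hob1' hob2' hlim hz1 hz2 hw1 hw2 hpig hD hbB hbB' hcx hst hFM0 hG
      grind)
    have h11 : Wk y (q0 + v + (j₂ + (f₂ + dl)) + (t + t)) y p' l' := by
      have e : q0 + v + (j₂ + (f₂ + dl)) + (t + t) =
          q0 + (b + b + u + (b + b)) + (j₁ + (f₁ + (m' + dl))) := by
        clear hq0 hJ hob1 hob2 hob1' hob2' hlim hz1 hz2 hw1 hw2 hpig hD hbB hbB' hcx hst hFM0 hG
        grind
      rw [e]
      exact hO2
    have h12 := hMIDP N S hS K c y G m₀ a hII hmt p' l' i' _ t h1 h2 hO1 h11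
    have e : q0 + v + (j₂ + (f₂ + dl)) + t + i' = q0 + (b + b + (n + i + x')) := by
      rw [ht]
      ring
    rw [e, hval x' hx'.le] at h12
    exact h12

end Pool.Agent.Work.MP_69fea5_lc.H3
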