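import Pool.Agent.Work.MP_69fea5_lc.H3.Stmts

/-!
Definability of the notions of `Stmts` and elementary facts.
-/

set_option autoImplicit false
set_option linter.unusedSectionVars false

namespace Pool.Agent.Work.MP_69fea5_lc.H3

open Pool.Agent.Work.MP_69fea5_lc.H2

universe u

variable {N : Type u} [CommSemiring N] [LinearOrder N] {K : Type}
variable {S : Set (Set N)} {α : Type u} [Cx N α]

/-! ### finite quantifiers over colours -/

theorem D.exK [Finite K] (hS : Good S) {R : K → α → Prop} (h : ∀ v, D S (R v)) :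
    D S fun a => ∃ v, R v a := by
  classical
  have := Fintype.ofFinite K
  have key : ∀ s : Finset K, D S fun a => ∃ v ∈ s, R v a := by
    intro s
    induction s using Finset.induction_on with
    | empty => exact (D.const hS False).congr fun _ => by simp
    | insert v s _ ih => exact ((h v).or ih).congr fun _ => by simp
  exact (key Finset.univ).congr fun _ => by simp

theorem D.allK [Finite K] (hS : Good S) {R : K → α → Prop} (h : ∀ v, D S (R v)) :
    D S fun a => ∀ v, R v a :=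
  (D.exK hS (R := fun v a => ¬ R v a) fun v => (h v).not).not.congr fun a => by simp

/-- `c (f a) = v` -/
theorem D.kv {c : N → K} (hc : DK S c) {f : α → N} (hf : DF S f) (v : K) :
    D S fun a => c (f a) = v :=
  D.mem (X := {x | c x = v}) (hc v) hf

/-- `c (f a) = d (g a)` -/
theorem D.kk [Finite K] (hS : Good S) {c d : N → K} (hc : DK S c) (hd : DK S d) {f g : α → N}
    (hf : DF S f) (hg : DF S g) : D S fun a => c (f a) = d (g a) :=
  (D.exK hS (R := fun v a => c (f a) = v ∧ d (g a) = v) fun v =>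
    (D.kv hc hf v).and (D.kv hd hg v)).congr fun a => by
      constructor
      · intro h; exact ⟨_, h, rfl⟩
      · rintro ⟨v, h1, h2⟩; exact h1.trans h2.symm

/-- `c (f a) ∈ T` -/
theorem D.kT [Finite K] (hS : Good S) {c : N → K} (hc : DK S c) {f : α → N} (hf : DF S f)
    (T : Set K) : D S fun a => c (f a) ∈ T :=
  (D.exK hS (R := fun v a => c (f a) = v ∧ v ∈ T) fun v =>
    (D.kv hc hf v).and (D.const hS _)).congr fun a => by
      constructor
      · intro h; exact ⟨_, rfl, h⟩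
      · rintro ⟨v, h1, h2⟩; exact h1 ▸ h2

/-- `G (f a) (g a) = c (h a)` -/
theorem D.gk [Finite K] (hS : Good S) {G : N → N → K}
    (hG : ∀ v, D S fun p : N × N × PUnit.{u + 1} => G p.1 p.2.1 = v) {c : N → K} (hc : DK S c)
    {f g h : α → N} (hf : DF S f) (hg : DF S g) (hh : DF S h) :
    D S fun a => G (f a) (g a) = c (h a) :=
  (D.exK hS (R := fun v a => G (f a) (g a) = v ∧ c (h a) = v) fun v =>
    (D.comp2 (R := fun x y => G x y = v) (hG v) hf hg).and (D.kv hc hh v)).congr fun a => by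
      constructor
      · intro h; exact ⟨_, h, rfl⟩
      · rintro ⟨v, h1, h2⟩; exact h1.trans h2.symm

theorem D.Wk [Finite K] (hS : Good S) {c d : N → K} (hc : DK S c) (hd : DK S d)
    {p q l : α → N} (hp : DF S p) (hq : DF S q) (hl : DF S l) :
    D S fun a => Wk c (p a) d (q a) (l a) :=
  D.ball hS (R := fun k a => c (p a + k) = d (q a + k))
    (D.kk hS hc hd (DF.add hS hp.wk (DF.v0 hS)) (DF.add hS hq.wk (DF.v0 hS))) hl

theorem D.Avk [Finite K] (hS : Good S) {c : N → K} (hc : DK S c) {F : α → Set N}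
    (hF : D S fun p : N × α => p.1 ∈ F p.2) {x n : α → N} (hx : DF S x) (hn : DF S n) :
    D S fun a => Avk c (F a) (x a) (n a) := by
  refine D.all (R := fun p a => ∀ l j, H2.pr p l ∈ F a → j + l ≤ n a →
    ¬ H3.Wk c (x a + j) c p l) ?_
  refine D.all (R := fun l (a : N × α) => ∀ j, H2.pr a.1 l ∈ F a.2 → j + l ≤ n a.2 →
    ¬ H3.Wk c (x a.2 + j) c a.1 l) ?_
  refine D.all (R := fun j (a : N × N × α) => H2.pr a.2.1 a.1 ∈ F a.2.2 → j + a.1 ≤ n a.2.2 →
    ¬ H3.Wk c (x a.2.2 + j) c a.2.1 a.1) ?_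
  refine D.imp ?_ (D.imp ?_ (D.not ?_))
  · exact D.memF (α := N × N × N × α) (F := fun a => F a.2.2.2)
      (D.wk1 (R := fun p : N × N × N × α => p.1 ∈ F p.2.2.2)
        (D.wk1 (R := fun p : N × N × α => p.1 ∈ F p.2.2)
          (D.wk1 (R := fun p : N × α => p.1 ∈ F p.2) hF)))
      (DF.pr hS (DF.v2 hS) (DF.v1 hS))
  · exact D.le hS (DF.add hS (DF.v0 hS) (DF.v1 hS)) hn.wk.wk.wk
  · exact D.Wk hS hc hc (DF.add hS hx.wk.wk.wk (DF.v0 hS)) (DF.v2 hS) (DF.v1 hS)

theorem D.Freek [Finite K] (hS : Good S) {c : N → K} (hc : DK S c) {F : α → Set N}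
    (hF : D S fun p : N × α => p.1 ∈ F p.2) : D S fun a => Freek c (F a) := by
  refine D.all (R := fun n a => ∀ z, ∃ x, z ≤ x ∧ H3.Avk c (F a) x n) ?_
  refine D.all (R := fun z (a : N × α) => ∃ x, z ≤ x ∧ H3.Avk c (F a.2) x a.1) ?_
  refine D.ex (R := fun x (a : N × N × α) => a.1 ≤ x ∧ H3.Avk c (F a.2.2) x a.2.1) ?_
  refine D.and (D.le hS (DF.v1 hS) (DF.v0 hS)) ?_
  exact D.Avk hS hc (α := N × N × N × α) (F := fun a => F a.2.2.2)
      (D.wk1 (R := fun p : N × N × N × α => p.1 ∈ F p.2.2.2)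
        (D.wk1 (R := fun p : N × N × α => p.1 ∈ F p.2.2)
          (D.wk1 (R := fun p : N × α => p.1 ∈ F p.2) hF))) (DF.v0 hS) (DF.v2 hS)

theorem D.Extk [Finite K] (hS : Good S) {y : N → K} (hy : DK S y) {p' l' d p l : α → N}
    (hp' : DF S p') (hl' : DF S l') (hd : DF S d) (hp : DF S p) (hl : DF S l) :
    D S fun a => Extk y (p' a) (l' a) (d a) (p a) (l a) :=
  (D.le hS (DF.add hS hd hl) hl').and (D.Wk hS hy hy (DF.add hS hp' hd) hp hl)

theorem D.Ach [Finite K] (hS : Good S) {c y : N → K} (hc : DK S c) (hy : DK S y)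
    {p l i : α → N} (hp : DF S p) (hl : DF S l) (hi : DF S i) (v : K) :
    D S fun a => Ach c y (p a) (l a) (i a) v := by
  refine D.all (R := fun n a => ∃ s, n ≤ s ∧ H3.Wk c s y (p a) (l a) ∧ ∃ q,
    H3.Wk y q y (p a) (l a) ∧ y (q + i a + (s + i a)) = v) ?_
  refine D.ex (R := fun s (a : N × α) => a.1 ≤ s ∧ H3.Wk c s y (p a.2) (l a.2) ∧ ∃ q,
    H3.Wk y q y (p a.2) (l a.2) ∧ y (q + i a.2 + (s + i a.2)) = v) ?_
  refine (D.le hS (DF.v1 hS) (DF.v0 hS)).and ?_
  refine (D.Wk hS hc hy (DF.v0 hS) hp.wk.wk hl.wk.wk).and ?_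
  refine D.ex (R := fun q (a : N × N × α) => H3.Wk y q y (p a.2.2) (l a.2.2) ∧
    y (q + i a.2.2 + (a.1 + i a.2.2)) = v) ?_
  refine (D.Wk hS hy hy (DF.v0 hS) hp.wk.wk.wk hl.wk.wk.wk).and ?_
  exact D.kv hy (DF.add hS (DF.add hS (DF.v0 hS) hi.wk.wk.wk)
      (DF.add hS (DF.v1 hS) hi.wk.wk.wk)) v

/-- `AS .. = a` -/
theorem D.AS [Finite K] (hS : Good S) {c y : N → K} (hc : DK S c) (hy : DK S y)
    {p l i : α → N} (hp : DF S p) (hl : DF S l) (hi : DF S i) (a : Set K) :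
    D S fun x => AS c y (p x) (l x) (i x) = a :=
  (D.allK hS (R := fun v x => (H3.Ach c y (p x) (l x) (i x) v ↔ v ∈ a)) fun v =>
    (D.Ach hS hc hy hp hl hi v).iff (D.const hS _)).congr fun x => by
      constructor
      · intro h v
        have : v ∈ H3.AS c y (p x) (l x) (i x) ↔ v ∈ a := by rw [h]
        exact this
      · intro h
        ext v
        exact h v

theorem D.Stab [Finite K] (hS : Good S) {c y : N → K} (hc : DK S c) (hy : DK S y)
    {p l i : α → N} (hp : DF S p) (hl : DF S l) (hi : DF S i) :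
    D S fun x => Stab c y (p x) (l x) (i x) := by
  refine D.all (R := fun p' x => ∀ l' d, H3.Extk y p' l' d (p x) (l x) →
    H3.AS c y (p x) (l x) (i x) ⊆ H3.AS c y p' l' (i x + d)) ?_
  refine D.all (R := fun l' (x : N × α) => ∀ d, H3.Extk y x.1 l' d (p x.2) (l x.2) →
    H3.AS c y (p x.2) (l x.2) (i x.2) ⊆ H3.AS c y x.1 l' (i x.2 + d)) ?_
  refine D.all (R := fun d (x : N × N × α) => H3.Extk y x.2.1 x.1 d (p x.2.2) (l x.2.2) →
    H3.AS c y (p x.2.2) (l x.2.2) (i x.2.2) ⊆ H3.AS c y x.2.1 x.1 (i x.2.2 + d)) ?_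
  refine (D.Extk hS hy (DF.v2 hS) (DF.v1 hS) (DF.v0 hS) hp.wk.wk.wk hl.wk.wk.wk).imp ?_
  exact (D.allK hS (R := fun v (x : N × N × N × α) =>
    (H3.Ach c y (p x.2.2.2) (l x.2.2.2) (i x.2.2.2) v →
      H3.Ach c y x.2.2.1 x.2.1 (i x.2.2.2 + x.1) v)) fun v =>
    (D.Ach hS hc hy hp.wk.wk.wk hl.wk.wk.wk hi.wk.wk.wk v).imp
      (D.Ach hS hc hy (DF.v2 hS) (DF.v1 hS) (DF.add hS hi.wk.wk.wk (DF.v0 hS)) v)).congr
    fun x => Iff.rfl

theorem D.Occ [Finite K] (hS : Good S) {y : N → K} (hy : DK S y) {G : N → N → K}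
    (hG : ∀ v, D S fun p : N × N × PUnit.{u + 1} => G p.1 p.2.1 = v) {m f p l : α → N}
    (hm : DF S m) (hf : DF S f) (hp : DF S p) (hl : DF S l) :
    D S fun a => Occ y G (m a) (f a) (p a) (l a) :=
  D.ball hS (R := fun k a => G (m a) (f a + k) = y (p a + k))
    (D.gk hS hG hy hm.wk (DF.add hS hf.wk (DF.v0 hS)) (DF.add hS hp.wk (DF.v0 hS))) hl

theorem D.FM [Finite K] (hS : Good S) {c y : N → K} (hc : DK S c) (hy : DK S y)
    {G : N → N → K} (hG : ∀ v, D S fun p : N × N × PUnit.{u + 1} => G p.1 p.2.1 = v)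
    {m p l i : α → N} (hm : DF S m) (hp : DF S p) (hl : DF S l) (hi : DF S i) :
    D S fun a => FM c y G (m a) (p a) (l a) (i a) := by
  refine (D.lt hS hi hl).and ((D.Stab hS hc hy hp hl hi).and ?_)
  refine D.ex (R := fun j₁ a => ∃ j₂, j₁ + j₂ + m a + m a = i a + i a ∧
    j₁ + m a + m a + 1 ≤ l a ∧ j₂ + m a + m a + 1 ≤ l a ∧
    (∀ t < m a + m a + 1, y (p a + j₁ + t) = G (m a) t) ∧
    ∀ t < m a + m a + 1, y (p a + j₂ + t) = G (m a) t) ?_
  refine D.ex (R := fun j₂ (a : N × α) => a.1 + j₂ + m a.2 + m a.2 = i a.2 + i a.2 ∧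
    a.1 + m a.2 + m a.2 + 1 ≤ l a.2 ∧ j₂ + m a.2 + m a.2 + 1 ≤ l a.2 ∧
    (∀ t < m a.2 + m a.2 + 1, y (p a.2 + a.1 + t) = G (m a.2) t) ∧
    ∀ t < m a.2 + m a.2 + 1, y (p a.2 + j₂ + t) = G (m a.2) t) ?_
  have hm2 := hm.wk (N := N) |>.wk (N := N)
  have hi2 := hi.wk (N := N) |>.wk (N := N)
  have hl2 := hl.wk (N := N) |>.wk (N := N)
  have hp2 := hp.wk (N := N) |>.wk (N := N)
  have hm3 := hm2.wk
  have hp3 := hp2.wk
  refine (D.eq (DF.add hS (DF.add hS (DF.add hS (DF.v1 hS) (DF.v0 hS)) hm2) hm2)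
    (DF.add hS hi2 hi2)).and ?_
  refine (D.le hS (DF.add hS (DF.add hS (DF.add hS (DF.v1 hS) hm2) hm2) (DF.one hS)) hl2).and ?_
  refine (D.le hS (DF.add hS (DF.add hS (DF.add hS (DF.v0 hS) hm2) hm2) (DF.one hS)) hl2).and ?_
  refine D.and ?_ ?_
  · refine D.ball hS (R := fun t (a : N × N × α) =>
      y (p a.2.2 + a.2.1 + t) = G (m a.2.2) t) ?_ (DF.add hS (DF.add hS hm2 hm2) (DF.one hS))
    exact (D.gk hS hG hy hm3 (DF.v0 hS)
      (DF.add hS (DF.add hS hp3 (DF.v2 hS)) (DF.v0 hS))).congr fun a => eq_comm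
  · refine D.ball hS (R := fun t (a : N × N × α) =>
      y (p a.2.2 + a.1 + t) = G (m a.2.2) t) ?_ (DF.add hS (DF.add hS hm2 hm2) (DF.one hS))
    exact (D.gk hS hG hy hm3 (DF.v0 hS)
      (DF.add hS (DF.add hS hp3 (DF.v1 hS)) (DF.v0 hS))).congr fun a => eq_comm

/-! ### elementary facts -/

section elem

variable [IsStrictOrderedRing N] [CanonicallyOrderedAdd N]

theorem Wk.refl (A : N → K) (p l : N) : Wk A p A p l := fun _ _ => rfl

theorem Wk.symm {A B : N → K} {p q l : N} (h : Wk A p B q l) : Wk B q A p l :=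
  fun k hk => (h k hk).symm

theorem Wk.trans {A B C : N → K} {p q r l : N} (h : Wk A p B q l) (h' : Wk B q C r l) :
    Wk A p C r l := fun k hk => (h k hk).trans (h' k hk)

theorem Wk.sub {A B : N → K} {p q l : N} (h : Wk A p B q l) {j m : N} (hjm : j + m ≤ l) :
    Wk A (p + j) B (q + j) m := fun k hk => by
  have h1 : j + k < l := lt_of_lt_of_le (by grind) hjm
  have := h (j + k) h1
  rwa [← add_assoc, ← add_assoc] at this

theorem Extk.refl (Y : N → K) (p l : N) : Extk Y p l 0 p l :=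
  ⟨by simp, by rw [add_zero]; exact Wk.refl _ _ _⟩

theorem Extk.trans {Y : N → K} {p'' l'' d' p' l' d p l : N} (h' : Extk Y p'' l'' d' p' l')
    (h : Extk Y p' l' d p l) : Extk Y p'' l'' (d + d') p l := by
  refine ⟨?_, ?_⟩
  · have h1 := h.1
    have h2 := h'.1
    grind
  · have h1 := (h'.2.sub h.1).trans h.2
    rwa [add_assoc, add_comm d' d] at h1

/-- the classes `F_m` decrease -/
theorem FM.anti {c y : N → K} {B : Set N} {G : N → N → K} (hG : TwoLimk S c y B G)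
    {m m' p l i : N} (hm : m ≤ m') (h : FM c y G m' p l i) : FM c y G m p l i := by
  obtain ⟨hi, hs, j₁, j₂, h1, h2, h3, h4, h5⟩ := h
  obtain ⟨r, rfl⟩ := exists_add hm
  refine ⟨hi, hs, j₁ + r, j₂ + r, ?_, ?_, ?_, ?_, ?_⟩
  · rw [← h1]; ring
  · have := zero_le (a := r)
    grind
  · have := zero_le (a := r)
    grind
  · intro t ht
    have e : p + (j₁ + r) + t = p + j₁ + (t + r) := by ring
    rw [e, h4 (t + r) (by have := zero_le (a := r); grind), hG.shift]
  · intro t ht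
    have e : p + (j₂ + r) + t = p + j₂ + (t + r) := by ring
    rw [e, h5 (t + r) (by have := zero_le (a := r); grind), hG.shift]

end elem

end Pool.Agent.Work.MP_69fea5_lc.H3
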